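import Mathlib

/-!
The random Borsuk graph, its neighbourhood complexes and the hitting angles.
-/

open Metric Set MeasureTheory
open scoped ENNReal

namespace Pool.Agent.Helper96.Borsuk

/-- `ℝ^m` with its Euclidean norm. -/
abbrev E (m : ℕ) : Type := EuclideanSpace ℝ (Fin m)

/-- The unit sphere of `ℝ^m`, of dimension `m - 1`. -/
abbrev Sp (m : ℕ) : Set (E m) := sphere (0 : E m) 1

/-- Lebesgue measure on `ℝ^m`. -/
noncomputable abbrev leb (m : ℕ) : Measure (E m) := volume

/-- The surface measure of the sphere `S^d` in `ℝ^(d+1)`. -/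
noncomputable abbrev surf (d : ℕ) : Measure (Sp (d + 1)) := (leb (d + 1)).toSphere

/-- The uniform probability distribution on the unit sphere `S^d` of `ℝ^(d+1)`: the normalised
surface measure. -/
noncomputable def unifSphere (d : ℕ) : Measure (Sp (d + 1)) := (surf d univ)⁻¹ • surf d

/-- The geodesic distance of two points of `S^d`: their angle. -/
noncomputable def geoDist {d : ℕ} (u v : Sp (d + 1)) : ℝ :=
  InnerProductGeometry.angle (u : E (d + 1)) v

/-- The Borsuk graph `G(n, α)` of the points `x_1, …, x_n` of `S^d`: two different vertices are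
adjacent if their geodesic distance is larger than `π - α`. -/
def borsukGraph {d n : ℕ} (x : Fin n → Sp (d + 1)) (α : ℝ) : SimpleGraph (Fin n) :=
  SimpleGraph.fromRel fun i j => Real.pi - α < geoDist (x i) (x j)

/-- The geometric realisation of the neighbourhood complex of a finite graph `H`: the points
`t = ∑ t_v v` of the simplex spanned by the vertices whose support has a common neighbour. -/
def nbhdComplex {V : Type*} (H : SimpleGraph V) : Set (V → ℝ) :=
  {t | (∀ v, 0 ≤ t v) ∧ ∑ᶠ v, t v = 1 ∧ ∃ w, ∀ v, t v ≠ 0 → H.Adj w v}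

/-- The property `𝒫_k`: the chromatic number is larger than `k`. -/
def ChromaticAbove (k : ℕ) {n : ℕ} (G : SimpleGraph (Fin n)) : Prop :=
  (k : ℕ∞) < G.chromaticNumber

/-- The property `𝒬_k`: there is a subgraph `H` whose neighbourhood complex is homotopy
equivalent to the sphere `S^(k-1)`, the unit sphere of `ℝ^k`. -/
def HasSphericalSubgraph (k : ℕ) {n : ℕ} (G : SimpleGraph (Fin n)) : Prop :=
  ∃ H : G.Subgraph, Nonempty (ContinuousMap.HomotopyEquiv (nbhdComplex H.coe) (Sp k))

/-- The hitting angle of a property: the infimum of the `α ∈ [0, π]` such that `G(n, α)` has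
the property (`⊤` if there is none). -/
noncomputable def hittingAngle {d n : ℕ} (P : SimpleGraph (Fin n) → Prop)
    (x : Fin n → Sp (d + 1)) : EReal :=
  ⨅ α : {α : ℝ // 0 ≤ α ∧ α ≤ Real.pi ∧ P (borsukGraph x α)}, ((α : ℝ) : EReal)

/-- The law of `n` independent uniform points of `S^d`. -/
noncomputable def law (d n : ℕ) : Measure (Fin n → Sp (d + 1)) := Measure.pi fun _ => unifSphere d

/-- The probability that the hitting angles of `𝒫_k` and `𝒬_k` are equal, for `n` points. -/
noncomputable def probEqual (d k n : ℕ) : ℝ≥0∞ :=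
  law d n {x | hittingAngle (ChromaticAbove k) x = hittingAngle (HasSphericalSubgraph k) x}

/-- The probability that the hitting angle of `𝒫_k` is at most `θ` and the hitting angle of `𝒬_k`
is at least `c θ`. -/
noncomputable def probSeparated (d k n : ℕ) (c θ : ℝ) : ℝ≥0∞ :=
  law d n {x | hittingAngle (ChromaticAbove k) x ≤ (θ : EReal) ∧
    ((c * θ : ℝ) : EReal) ≤ hittingAngle (HasSphericalSubgraph k) x}

end Pool.Agent.Helper96.Borsuk
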