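import Mathlib
import Pool.Agent.Helper96.Defs

/-!
Maps from a sphere to a sphere of larger dimension are null-homotopic.
-/

open Metric Set Filter Topology MeasureTheory
open scoped NNReal ENNReal unitInterval ContDiff Manifold

namespace Pool.Agent.Helper96.Borsuk

lemma norm_sph {m : ℕ} (u : sphere (0 : E m) 1) : ‖(u : E m)‖ = 1 :=
  norm_eq_of_mem_sphere u

/-- Radial normalisation of a nowhere vanishing map. -/
noncomputable def nz {X : Type*} [TopologicalSpace X] {m : ℕ} (f : C(X, E m))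
    (hf : ∀ x, f x ≠ 0) : C(X, sphere (0 : E m) 1) where
  toFun x := ⟨‖f x‖⁻¹ • f x, by simp [norm_smul, hf x]⟩
  continuous_toFun := by
    refine Continuous.subtype_mk ?_ _
    exact (f.continuous.norm.inv₀ fun x => norm_ne_zero_iff.2 (hf x)).smul f.continuous

lemma nz_apply {X : Type*} [TopologicalSpace X] {m : ℕ} (f : C(X, E m))
    (hf : ∀ x, f x ≠ 0) (x : X) : (nz f hf x : E m) = ‖f x‖⁻¹ • f x := rfl

lemma nz_homotopic {X : Type*} [TopologicalSpace X] {m : ℕ} (f g : C(X, E m))
    (hf : ∀ x, f x ≠ 0) (hg : ∀ x, g x ≠ 0)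
    (h : ∀ x, ∀ s ∈ Icc (0:ℝ) 1, (1 - s) • f x + s • g x ≠ 0) :
    (nz f hf).Homotopic (nz g hg) := by
  let F : C(I × X, E m) :=
    { toFun := fun p => (1 - (p.1:ℝ)) • f p.2 + (p.1:ℝ) • g p.2
      continuous_toFun := by fun_prop }
  have hF : ∀ p, F p ≠ 0 := fun p => h p.2 p.1 p.1.2
  refine ⟨{ toContinuousMap := nz F hF, map_zero_left := ?_, map_one_left := ?_ }⟩
  · intro x
    apply Subtype.ext
    show (nz F hF (0, x) : E m) = _
    rw [nz_apply, nz_apply]
    simp [F]
  · intro x
    apply Subtype.ext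
    show (nz F hF (1, x) : E m) = _
    rw [nz_apply, nz_apply]
    simp [F]

/-- The inclusion of the sphere. -/
def inc (m : ℕ) : C(sphere (0 : E m) 1, E m) := ⟨Subtype.val, continuous_subtype_val⟩

lemma smooth_approx {m n : ℕ} (f : E m → E n) (hf : Continuous f) :
    ∃ g : E m → E n, ContDiff ℝ 1 g ∧ ∀ x, ‖g x - f x‖ < 1 / 2 := by
  obtain ⟨g, hg⟩ := exists_contMDiffMap_forall_mem_convex_of_local_const (n := 1) 𝓘(ℝ, E m)
    (t := fun x => ball (f x) (1/2)) (fun x => convex_ball _ _) (fun x => ⟨f x, by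
      have := (hf.tendsto x).eventually (ball_mem_nhds (f x) (by norm_num : (0:ℝ) < 1/2))
      filter_upwards [this] with y hy
      rw [mem_ball, dist_comm]
      exact hy⟩)
  refine ⟨g, g.contMDiff.contDiff, fun x => ?_⟩
  have := hg x
  rwa [mem_ball, dist_eq_norm] at this

lemma radial_continuous {m n : ℕ} (f : C(sphere (0 : E m) 1, E n)) (C : ℝ) (hC : ∀ u, ‖f u‖ ≤ C) :
    Continuous (fun x : E m => if h : x = 0 then (0 : E n) else
      ‖x‖ • f ⟨‖x‖⁻¹ • x, by simp [norm_smul, h]⟩) := by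
  rw [continuous_iff_continuousAt]
  intro x
  by_cases hx : x = 0
  · subst hx
    unfold ContinuousAt
    simp only [dite_true]
    have h1 : Tendsto (fun x : E m => ‖x‖ * C) (𝓝 0) (𝓝 0) := by
      have : Continuous (fun x : E m => ‖x‖ * C) := by fun_prop
      simpa using this.tendsto 0
    refine squeeze_zero_norm (fun x => ?_) h1
    by_cases h : x = 0
    · subst h; simp
    · rw [dif_neg h, norm_smul]
      refine (mul_le_mul_of_nonneg_left (hC _) (norm_nonneg _)).trans (le_of_eq ?_)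
      rw [norm_norm]
  · have ho : IsOpen {x : E m | x ≠ 0} := isOpen_ne
    have h2 : ContinuousOn (fun x : E m => if h : x = 0 then (0 : E n) else
      ‖x‖ • f ⟨‖x‖⁻¹ • x, by simp [norm_smul, h]⟩) {x : E m | x ≠ 0} := by
      rw [continuousOn_iff_continuous_domRestrict]
      have : Set.domRestrict {x : E m | x ≠ 0} (fun x : E m => if h : x = 0 then (0 : E n) else
          ‖x‖ • f ⟨‖x‖⁻¹ • x, by simp [norm_smul, h]⟩) =
          fun x : {x : E m | x ≠ 0} => ‖(x : E m)‖ • f ⟨‖(x : E m)‖⁻¹ • (x : E m), by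
            simp [norm_smul, show (x : E m) ≠ 0 from x.2]⟩ := by
        funext x
        simp only [Set.domRestrict_apply]
        rw [dif_neg (show (x : E m) ≠ 0 from x.2)]
      rw [this]
      refine Continuous.smul (continuous_norm.comp continuous_subtype_val)
        (f.continuous.comp (Continuous.subtype_mk ?_ _))
      refine Continuous.smul (Continuous.inv₀ (continuous_norm.comp continuous_subtype_val)
        fun x => ?_) continuous_subtype_val
      exact norm_ne_zero_iff.2 x.2
    exact h2.continuousAt (ho.mem_nhds hx)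

/-- A map from the unit sphere of `ℝ^m` to the unit sphere of `ℝ^n` with `m < n` is
null-homotopic. -/
theorem nullhomotopic_of_lt {m n : ℕ} (hmn : m < n)
    (f : C(sphere (0 : E m) 1, sphere (0 : E n) 1)) : f.Nullhomotopic := by
  -- extend and approximate
  have hc := radial_continuous ((inc n).comp f) 1 (fun u => (norm_sph (f u)).le)
  obtain ⟨g, hg, hgf⟩ := smooth_approx _ hc
  have hgf' : ∀ u : sphere (0 : E m) 1, ‖g u - f u‖ < 1 / 2 := by
    intro u
    have h1 := hgf u
    have hu : (u : E m) ≠ 0 := by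
      intro h; have := norm_sph u; rw [h] at this; simp at this
    rw [dif_neg hu] at h1
    have h2 : (⟨‖(u : E m)‖⁻¹ • (u : E m), by simp⟩ : sphere (0 : E m) 1) = u := by
      apply Subtype.ext; simp
    rw [h2, norm_sph, one_smul] at h1
    exact h1
  -- the radial extension of g
  let R : E m → E n := fun x => ‖x‖ • g (‖x‖⁻¹ • x)
  have hR : dimH (R '' {0}ᶜ) < (Module.finrank ℝ (E n) : ℝ≥0∞) := by
    have h1 : dimH (R '' {0}ᶜ) ≤ dimH ({0}ᶜ : Set (E m)) := by
      apply dimH_image_le_of_locally_lipschitzOn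
      intro x hx
      have hx' : x ≠ 0 := hx
      have h2 : ContDiffAt ℝ 1 R x := by
        have h3 : ContDiffAt ℝ 1 (fun x : E m => ‖x‖) x := contDiffAt_norm ℝ hx'
        refine h3.smul (hg.contDiffAt.comp x ?_)
        exact (h3.inv (norm_ne_zero_iff.2 hx')).smul contDiffAt_id
      obtain ⟨K, t, ht, hL⟩ := h2.exists_lipschitzOnWith
      exact ⟨K, t, mem_nhdsWithin_of_mem_nhds ht, hL⟩
    have h2 : dimH ({0}ᶜ : Set (E m)) ≤ dimH (univ : Set (E m)) := dimH_mono (subset_univ _)
    rw [Real.dimH_univ_eq_finrank] at h2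
    refine lt_of_le_of_lt (h1.trans h2) ?_
    simp only [finrank_euclideanSpace, Fintype.card_fin]
    exact_mod_cast hmn
  have hdense := dense_compl_of_dimH_lt_finrank hR
  obtain ⟨z', hz'⟩ : ∃ z', z' ∈ (R '' {0}ᶜ)ᶜ ∧ z' ≠ 0 := by
    have : Nonempty (Fin n) := ⟨⟨m, hmn⟩⟩
    have hne : ({0}ᶜ : Set (E n)).Nonempty := by
      obtain ⟨v, hv⟩ := exists_ne (0 : E n)
      exact ⟨v, hv⟩
    obtain ⟨z, hz1, hz2⟩ := hdense.inter_open_nonempty {0}ᶜ isOpen_compl_singleton hne
    exact ⟨z, hz2, hz1⟩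
  obtain ⟨hz'1, hz'0⟩ := hz'
  let gs : C(sphere (0 : E m) 1, E n) := ⟨fun u => g u, hg.continuous.comp continuous_subtype_val⟩
  have hgs : ∀ u, gs u ≠ 0 := by
    intro u h
    have h1 := hgf' u
    have h2 : g u = 0 := h
    rw [h2, zero_sub, norm_neg, norm_sph] at h1
    norm_num at h1
  let fs : C(sphere (0 : E m) 1, E n) := (inc n).comp f
  have hfs : ∀ u, fs u ≠ 0 := by
    intro u h
    have := norm_sph (f u)
    have h2 : (f u : E n) = 0 := h
    rw [h2] at this; simp at this
  have hf1 : f = nz fs hfs := by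
    ext1 u
    apply Subtype.ext
    rw [nz_apply]
    show (f u : E n) = ‖(f u : E n)‖⁻¹ • (f u : E n)
    rw [norm_sph]; simp
  have e1 : (nz fs hfs).Homotopic (nz gs hgs) := by
    apply nz_homotopic
    intro x s hs h
    have h1 : (f x : E n) = -(s • (g x - f x)) := by
      have h2 : (1 - s) • (f x : E n) + s • g x = 0 := h
      have h3 : (f x : E n) + s • (g x - f x) = 0 := by
        refine Eq.trans ?_ h2
        rw [smul_sub, sub_smul, one_smul]; abel
      exact eq_neg_of_add_eq_zero_left h3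
    have h2 := norm_sph (f x)
    rw [h1, norm_neg, norm_smul, Real.norm_eq_abs, abs_of_nonneg hs.1] at h2
    have h3 := hgf' x
    have h4 : s * ‖g x - f x‖ ≤ 1 * ‖g x - f x‖ :=
      mul_le_mul_of_nonneg_right hs.2 (norm_nonneg _)
    linarith
  let cs : C(sphere (0 : E m) 1, E n) := ContinuousMap.const _ (-z')
  have hcs : ∀ u, cs u ≠ 0 := fun u => neg_ne_zero.2 hz'0
  have e2 : (nz gs hgs).Homotopic (nz cs hcs) := by
    apply nz_homotopic
    intro x s hs h
    have h1 : (1 - s) • g x + s • (-z') = 0 := h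
    rcases eq_or_lt_of_le hs.1 with h0 | h0
    · rw [← h0] at h1
      simp at h1
      exact hgs x h1
    rcases eq_or_lt_of_le hs.2 with h2 | h2
    · rw [h2] at h1
      simp at h1
      exact hz'0 h1
    apply hz'1
    have h3 : z' = ((1 - s) / s) • g x := by
      have h4 : s • z' = (1 - s) • g x := by
        rw [smul_neg] at h1
        exact (eq_of_sub_eq_zero (by rw [sub_eq_add_neg]; exact h1)).symm
      rw [div_eq_inv_mul, mul_smul, ← h4, smul_smul, inv_mul_cancel₀ h0.ne', one_smul]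
    have hl : 0 < (1 - s) / s := div_pos (by linarith) h0
    have hxx : (x : E m) ≠ 0 := by
      intro h; have := norm_sph x; rw [h] at this; simp at this
    refine ⟨((1 - s) / s) • (x : E m), ?_, ?_⟩
    · exact smul_ne_zero hl.ne' hxx
    · show ‖((1 - s) / s) • (x : E m)‖ • g (‖((1 - s) / s) • (x : E m)‖⁻¹ • ((1 - s) / s) • (x : E m)) = z'
      rw [norm_smul, norm_sph, mul_one, Real.norm_eq_abs, abs_of_pos hl, smul_smul,
        inv_mul_cancel₀ hl.ne', one_smul, h3]
  have e3 : nz cs hcs = ContinuousMap.const _ ⟨‖-z'‖⁻¹ • (-z'), by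
      simp [norm_smul, hz'0]⟩ := by
    ext1 u
    rfl
  refine ⟨⟨‖-z'‖⁻¹ • (-z'), by simp [norm_smul, hz'0]⟩, ?_⟩
  rw [hf1, ← e3]
  exact e1.trans e2

end Pool.Agent.Helper96.Borsuk
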