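import Mathlib
import Pool.Graph.R_seed8.Helper325.BorsukUlam
import Pool.Agent.Helper96.Null

/-!
Borsuk-Ulam for odd maps of the Euclidean sphere.
-/

open Metric Set Filter Topology MeasureTheory
open scoped NNReal ENNReal unitInterval ContDiff Manifold

namespace Pool.Agent.Helper96.Borsuk

/-- An odd continuous map from the unit sphere of `ℝ^(d+1)` to `ℝ^d` has a zero. -/
theorem bu_sphere (d : ℕ) (g : C(sphere (0 : E (d+1)) 1, E d))
    (hodd : ∀ u, g (-u) = -g u) : ∃ u, g u = 0 := by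
  obtain ⟨C, hC⟩ : ∃ C, ∀ u, ‖g u‖ ≤ C := by
    obtain ⟨C, hC⟩ := (isCompact_range g.continuous).isBounded.exists_norm_le
    exact ⟨C, fun u => hC _ ⟨u, rfl⟩⟩
  have hc := radial_continuous g C hC
  set G : E (d+1) → E d := fun x => if h : x = 0 then (0 : E d) else
      ‖x‖ • g ⟨‖x‖⁻¹ • x, by simp [norm_smul, h]⟩ with hG
  let f : (Fin (d + 1) → ℝ) → (Fin d → ℝ) := fun y => WithLp.ofLp (G (WithLp.toLp 2 y))
  have hf : Continuous f := by
    refine (PiLp.continuous_ofLp 2 _).comp (hc.comp (PiLp.continuous_toLp 2 _))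
  have hGodd : ∀ x, G (-x) = -G x := by
    intro x
    by_cases h : x = 0
    · subst h; simp [hG]
    · have h' : -x ≠ 0 := neg_ne_zero.2 h
      simp only [hG]
      rw [dif_neg h, dif_neg h', ← smul_neg, ← hodd]
      have e : (⟨‖-x‖⁻¹ • -x, by simp [norm_smul, h]⟩ : sphere (0 : E (d+1)) 1) =
          -⟨‖x‖⁻¹ • x, by simp [norm_smul, h]⟩ := by
        apply Subtype.ext
        simp
      rw [e]
      exact congrArg (fun r : ℝ => r • g (-⟨‖x‖⁻¹ • x, by simp [norm_smul, h]⟩)) (norm_neg x)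
  have hfodd : ∀ x, f (-x) = - f x := by
    intro x
    simp only [f]
    rw [WithLp.toLp_neg, hGodd, WithLp.ofLp_neg]
  obtain ⟨y, hy, hfy⟩ := Pool.Agent.Helper325.BorsukUlam.borsuk_ulam d f hf hfodd
  have hy0 : WithLp.toLp 2 y ≠ (0 : E (d+1)) := by
    intro h
    have hy' : y = 0 := by
      have := congrArg WithLp.ofLp h
      simpa using this
    rw [hy'] at hy
    simp [Pool.Agent.Helper325.BorsukUlam.K] at hy
  have h1 : G (WithLp.toLp 2 y) = 0 := by
    have := congrArg (WithLp.toLp 2) hfy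
    simpa [f] using this
  simp only [hG] at h1
  rw [dif_neg hy0] at h1
  rcases smul_eq_zero.1 h1 with h2 | h2
  · exact absurd (norm_eq_zero.1 h2) hy0
  · exact ⟨_, h2⟩

end Pool.Agent.Helper96.Borsuk
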