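import Mathlib
import Pool.Agent.Helper96.Defs
import Pool.Agent.Helper96.Null

/-!
Measures of caps of the sphere.
-/

open Metric Set Filter Topology MeasureTheory
open scoped NNReal ENNReal Pointwise

namespace Pool.Agent.Helper96.Borsuk

/-- The volume of the unit ball. -/
noncomputable def om (d : ℕ) : ℝ := (volume : Measure (E (d+1))).real (ball 0 1)

lemma om_pos (d : ℕ) : 0 < om d := by
  unfold om
  rw [Measure.real, ENNReal.toReal_pos_iff]
  exact ⟨measure_ball_pos _ _ one_pos, measure_ball_lt_top⟩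

/-- The cone of height `r` over `A`. -/
def cn {d : ℕ} (A : Set (E (d+1))) (r : ℝ) : Set (E (d+1)) :=
  {x | 0 < ‖x‖ ∧ ‖x‖ < r ∧ ‖x‖⁻¹ • x ∈ A}

lemma measurableSet_cn {d : ℕ} {A : Set (E (d+1))} (hA : MeasurableSet A) (r : ℝ) :
    MeasurableSet (cn A r) := by
  unfold cn
  have h1 : Measurable fun x : E (d+1) => ‖x‖⁻¹ • x :=
    (measurable_norm.inv).smul measurable_id
  exact ((measurableSet_lt measurable_const measurable_norm).inter
    ((measurableSet_lt measurable_norm measurable_const).inter (h1 hA)))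

lemma cn_subset {d : ℕ} (A : Set (E (d+1))) (r : ℝ) : cn A r ⊆ ball 0 r := by
  intro x hx
  rw [mem_ball_zero_iff]
  exact hx.2.1

lemma cn_ne_top {d : ℕ} (A : Set (E (d+1))) (r : ℝ) : (volume : Measure (E (d+1))) (cn A r) ≠ ∞ :=
  ((measure_mono (cn_subset A r)).trans_lt measure_ball_lt_top).ne

instance (d : ℕ) : IsProbabilityMeasure (unifSphere d) := by
  constructor
  unfold unifSphere
  rw [Measure.smul_apply, smul_eq_mul]
  apply ENNReal.inv_mul_cancel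
  · rw [Measure.toSphere_apply_univ]
    have h1 : (volume : Measure (E (d+1))) (ball 0 1) ≠ 0 := (measure_ball_pos _ _ one_pos).ne'
    simp [h1]
  · exact measure_ne_top _ _

lemma unif_apply {d : ℕ} {A : Set (E (d+1))} (hA : MeasurableSet A) :
    (unifSphere d).real (Subtype.val ⁻¹' A) = (volume : Measure (E (d+1))).real (cn A 1) / om d := by
  have hS : MeasurableSet (Subtype.val ⁻¹' A : Set (sphere (0 : E (d+1)) 1)) :=
    measurable_subtype_coe hA
  have hset : Ioo (0:ℝ) 1 • ((↑) '' (Subtype.val ⁻¹' A : Set (sphere (0 : E (d+1)) 1)) :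
      Set (E (d+1))) = cn A 1 := by
    ext x
    constructor
    · rintro ⟨s, hs, _, ⟨y, hy, rfl⟩, rfl⟩
      have hn : ‖s • (y : E (d+1))‖ = s := by
        rw [norm_smul, norm_sph, mul_one, Real.norm_eq_abs, abs_of_pos hs.1]
      have hy' : (y : E (d+1)) ∈ A := hy
      show 0 < ‖s • (y : E (d+1))‖ ∧ ‖s • (y : E (d+1))‖ < 1 ∧
        ‖s • (y : E (d+1))‖⁻¹ • s • (y : E (d+1)) ∈ A
      rw [hn, smul_smul, inv_mul_cancel₀ hs.1.ne', one_smul]
      exact ⟨hs.1, hs.2, hy'⟩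
    · rintro ⟨h1, h2, h3⟩
      refine ⟨‖x‖, ⟨h1, h2⟩, ‖x‖⁻¹ • x, ⟨⟨‖x‖⁻¹ • x, ?_⟩, h3, rfl⟩, ?_⟩
      · simp [norm_smul, h1.ne']
      · show ‖x‖ • ‖x‖⁻¹ • x = x
        rw [smul_smul, mul_inv_cancel₀ h1.ne', one_smul]
  unfold unifSphere om Measure.real
  rw [Measure.smul_apply, Measure.toSphere_apply' _ hS, hset, Measure.toSphere_apply_univ,
    smul_eq_mul, ENNReal.toReal_mul, ENNReal.toReal_inv, ENNReal.toReal_mul, ENNReal.toReal_mul]
  simp only [finrank_euclideanSpace, Fintype.card_fin]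
  have h1 : (0:ℝ) < ((d + 1 : ℕ) : ℝ≥0∞).toReal := by
    rw [ENNReal.toReal_natCast]; positivity
  have h2 : ((volume : Measure (E (d+1))) (ball 0 1)).toReal ≠ 0 := (om_pos d).ne'
  field_simp

lemma cn_scale {d : ℕ} (A : Set (E (d+1))) {r : ℝ} (hr : 0 < r) :
    (volume : Measure (E (d+1))).real (cn A r) =
      r ^ (d+1) * (volume : Measure (E (d+1))).real (cn A 1) := by
  have hset : cn A r = r • cn A 1 := by
    ext x
    rw [Set.mem_smul_set_iff_inv_smul_mem₀ hr.ne']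
    have hn : ‖r⁻¹ • x‖ = ‖x‖ / r := by
      rw [norm_smul, norm_inv, Real.norm_eq_abs, abs_of_pos hr]; ring
    show 0 < ‖x‖ ∧ ‖x‖ < r ∧ ‖x‖⁻¹ • x ∈ A ↔
      0 < ‖r⁻¹ • x‖ ∧ ‖r⁻¹ • x‖ < 1 ∧ ‖r⁻¹ • x‖⁻¹ • r⁻¹ • x ∈ A
    rw [hn, div_lt_one hr, div_pos_iff_of_pos_right hr, smul_smul]
    have : (‖x‖ / r)⁻¹ * r⁻¹ = ‖x‖⁻¹ := by
      rw [inv_div, div_mul_eq_mul_div, mul_inv_cancel₀ hr.ne', one_div]
    rw [this]
  unfold Measure.real
  rw [hset, Measure.addHaar_smul, ENNReal.toReal_mul, ENNReal.toReal_ofReal (abs_nonneg _)]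
  simp only [finrank_euclideanSpace, Fintype.card_fin]
  rw [abs_of_pos (pow_pos hr _)]

/-- Volume of a shell. -/
lemma shell {d : ℕ} {A : Set (E (d+1))} (hA : MeasurableSet A) {r s : ℝ} (hr : 0 < r)
    (hrs : r ≤ s) :
    (volume : Measure (E (d+1))).real {x | r ≤ ‖x‖ ∧ ‖x‖ < s ∧ ‖x‖⁻¹ • x ∈ A} =
      (s ^ (d+1) - r ^ (d+1)) * (volume : Measure (E (d+1))).real (cn A 1) := by
  have hset : {x : E (d+1) | r ≤ ‖x‖ ∧ ‖x‖ < s ∧ ‖x‖⁻¹ • x ∈ A} = cn A s \ cn A r := by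
    ext x
    constructor
    · rintro ⟨h1, h2, h3⟩
      exact ⟨⟨hr.trans_le h1, h2, h3⟩, fun h => absurd h.2.1 (not_lt.2 h1)⟩
    · rintro ⟨⟨h1, h2, h3⟩, h4⟩
      refine ⟨?_, h2, h3⟩
      by_contra h
      push Not at h
      exact h4 ⟨h1, h, h3⟩
  have hsub : cn A r ⊆ cn A s := fun x hx => ⟨hx.1, hx.2.1.trans_le hrs, hx.2.2⟩
  rw [hset, measureReal_sdiff hsub (measurableSet_cn hA r) (cn_ne_top A s),
    cn_scale A (hr.trans_le hrs), cn_scale A hr]
  ring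

lemma ball_vol {d : ℕ} (z : E (d+1)) {r : ℝ} (hr : 0 < r) :
    (volume : Measure (E (d+1))).real (ball z r) = r ^ (d+1) * om d := by
  unfold om Measure.real
  rw [Measure.addHaar_ball_of_pos _ _ hr, ENNReal.toReal_mul,
    ENNReal.toReal_ofReal (pow_nonneg hr.le _)]
  simp only [finrank_euclideanSpace, Fintype.card_fin]

lemma closedBall_vol {d : ℕ} (z : E (d+1)) {r : ℝ} (hr : 0 < r) :
    (volume : Measure (E (d+1))).real (closedBall z r) = r ^ (d+1) * om d := by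
  rw [← ball_vol z hr]
  unfold Measure.real
  rw [Measure.addHaar_closedBall_eq_addHaar_ball]

lemma pow_sub_pow_le {a b : ℝ} (hb : 0 ≤ b) (hab : b ≤ a) (n : ℕ) :
    a ^ (n+1) - b ^ (n+1) ≤ (n+1) * (a - b) * a ^ n := by
  have ha : 0 ≤ a := hb.trans hab
  have h := (Commute.all a b).mul_geom_sum₂ (n+1)
  rw [← h]
  have h2 : ∑ i ∈ Finset.range (n+1), a ^ i * b ^ (n + 1 - 1 - i) ≤ (n+1) * a ^ n := by
    calc ∑ i ∈ Finset.range (n+1), a ^ i * b ^ (n + 1 - 1 - i)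
        ≤ ∑ i ∈ Finset.range (n+1), a ^ n := by
          apply Finset.sum_le_sum
          intro i hi
          rw [Finset.mem_range] at hi
          calc a ^ i * b ^ (n + 1 - 1 - i) ≤ a ^ i * a ^ (n + 1 - 1 - i) := by
                gcongr
            _ = a ^ n := by rw [← pow_add]; congr 1; omega
      _ = (n+1) * a ^ n := by
          rw [Finset.sum_const, Finset.card_range, nsmul_eq_mul]; push_cast; ring
  calc (a - b) * ∑ i ∈ Finset.range (n+1), a ^ i * b ^ (n + 1 - 1 - i)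
      ≤ (a - b) * ((n+1) * a ^ n) := mul_le_mul_of_nonneg_left h2 (by linarith)
    _ = (n+1) * (a - b) * a ^ n := by ring

/-- Lower bound for the measure of a cap. -/
lemma cap_lower {d : ℕ} {z : E (d+1)} (hz : ‖z‖ = 1) {t r : ℝ} (ht : 0 < t) (ht1 : t < 1)
    (hr : t ^ 2 ≤ r ^ 2 * (1 - t)) (hr0 : 0 < r) :
    t ^ d / (2 * (d+1) * (1 + t) ^ d) ≤ (unifSphere d).real (Subtype.val ⁻¹' (ball z r)) := by
  rw [unif_apply measurableSet_ball, le_div_iff₀ (om_pos d)]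
  have hsub : ball z t ⊆ {x : E (d+1) | 1 - t ≤ ‖x‖ ∧ ‖x‖ < 1 + t ∧ ‖x‖⁻¹ • x ∈ ball z r} := by
    intro x hx
    rw [mem_ball, dist_eq_norm] at hx
    have h1 : ‖x‖ < 1 + t := by
      have := norm_sub_norm_le x z
      rw [hz] at this; linarith
    have h2 : 1 - t < ‖x‖ := by
      have := norm_sub_norm_le z x
      rw [hz, norm_sub_rev] at this; linarith
    have h0 : 0 < ‖x‖ := by linarith
    refine ⟨h2.le, h1, ?_⟩
    rw [mem_ball, dist_eq_norm]
    have h3 : ‖x - z‖ ^ 2 = ‖x‖ ^ 2 - 2 * inner ℝ x z + 1 := by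
      rw [norm_sub_sq_real, hz]; ring
    have h4 : ‖‖x‖⁻¹ • x - z‖ ^ 2 = 2 - 2 * (‖x‖⁻¹ * inner ℝ x z) := by
      rw [norm_sub_sq_real, hz, norm_smul, norm_inv, norm_norm, inv_mul_cancel₀ h0.ne',
        inner_smul_left]
      simp; ring
    have h5 : ‖x - z‖ ^ 2 < t ^ 2 := by
      have := norm_nonneg (x - z)
      nlinarith
    have h6 : ‖‖x‖⁻¹ • x - z‖ ^ 2 < r ^ 2 := by
      rw [h4]
      have h7 : 2 * inner ℝ x z > ‖x‖ ^ 2 + 1 - t ^ 2 := by linarith
      have h8 : 2 * ‖x‖ - 2 * inner ℝ x z < r ^ 2 * ‖x‖ := by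
        have h9 : 0 ≤ (‖x‖ - 1) ^ 2 := sq_nonneg _
        have h10 : r ^ 2 * (1 - t) ≤ r ^ 2 * ‖x‖ := mul_le_mul_of_nonneg_left h2.le (sq_nonneg _)
        nlinarith
      have h11 : ‖x‖⁻¹ * (2 * ‖x‖ - 2 * inner ℝ x z) < ‖x‖⁻¹ * (r ^ 2 * ‖x‖) :=
        mul_lt_mul_of_pos_left h8 (inv_pos.2 h0)
      have h12 : ‖x‖⁻¹ * (2 * ‖x‖ - 2 * inner ℝ x z) = 2 - 2 * (‖x‖⁻¹ * inner ℝ x z) := by
        field_simp
      have h13 : ‖x‖⁻¹ * (r ^ 2 * ‖x‖) = r ^ 2 := by field_simp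
      rw [h12, h13] at h11
      exact h11
    exact lt_of_pow_lt_pow_left₀ 2 hr0.le h6
  have h1 := measureReal_mono (μ := (volume : Measure (E (d+1)))) hsub (by
    refine ((measure_mono (t := ball (0 : E (d+1)) (1+t)) ?_).trans_lt measure_ball_lt_top).ne
    intro x hx
    rw [mem_ball_zero_iff]; exact hx.2.1)
  rw [shell measurableSet_ball (by linarith) (by linarith), ball_vol z ht] at h1
  have h2 := pow_sub_pow_le (a := 1 + t) (b := 1 - t) (by linarith) (by linarith) d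
  have h3 : (1 + t) ^ (d+1) - (1 - t) ^ (d+1) ≤ t * (2 * (d+1) * (1 + t) ^ d) := by
    refine h2.trans (le_of_eq ?_); ring
  have h4 : 0 ≤ (volume : Measure (E (d+1))).real (cn (ball z r) 1) := measureReal_nonneg
  have h5 := h1.trans (mul_le_mul_of_nonneg_right h3 h4)
  have h6 : 0 < 2 * ((d:ℝ)+1) * (1 + t) ^ d := by positivity
  rw [div_mul_eq_mul_div, div_le_iff₀ h6]
  have h7 : t * (t ^ d * om d) ≤
      t * ((volume : Measure (E (d+1))).real (cn (ball z r) 1) * (2 * (d+1) * (1 + t) ^ d)) := by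
    calc t * (t ^ d * om d) = t ^ (d+1) * om d := by ring
      _ ≤ _ := h5
      _ = _ := by ring
  exact le_of_mul_le_mul_left h7 ht

/-- Cones over a set are controlled by thin shells. -/
lemma cone_le_shell {d : ℕ} {A : Set (E (d+1))} (hA : MeasurableSet A) {h : ℝ} (h0 : 0 < h)
    (h1 : h < 1) :
    (1 - (1 - h) ^ (d+1)) * (volume : Measure (E (d+1))).real (cn A 1) ≤
      (volume : Measure (E (d+1))).real {x | 1 - h ≤ ‖x‖ ∧ ‖x‖ < 1 ∧ ‖x‖⁻¹ • x ∈ A} := by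
  rw [shell hA (by linarith) (by linarith), one_pow]

/-- Upper bound for the measure of a cap. -/
lemma cap_upper {d : ℕ} {z : E (d+1)} {r : ℝ} (hr0 : 0 < r) (hr1 : r ≤ 1) (hd : 1 ≤ d) :
    (unifSphere d).real (Subtype.val ⁻¹' (ball z r)) ≤ 6 * r ^ d := by
  rw [unif_apply measurableSet_ball, div_le_iff₀ (om_pos d)]
  set D : ℝ := (d:ℝ) + 1 with hD
  have hd' : (1:ℝ) ≤ d := by exact_mod_cast hd
  have hD2 : 2 ≤ D := by rw [hD]; linarith
  have hD0 : 0 < D := by linarith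
  set h : ℝ := r / D with hh
  have h0 : 0 < h := div_pos hr0 hD0
  have h1 : h < 1 := by
    rw [hh, div_lt_one hD0]; linarith
  have hsub : {x : E (d+1) | 1 - h ≤ ‖x‖ ∧ ‖x‖ < 1 ∧ ‖x‖⁻¹ • x ∈ ball z r} ⊆ ball z (r + h) := by
    rintro x ⟨hx1, hx2, hx3⟩
    rw [mem_ball, dist_eq_norm] at hx3 ⊢
    have hx0 : 0 < ‖x‖ := by linarith
    have e : x - z = (‖x‖⁻¹ • x - z) - (1 - ‖x‖) • (‖x‖⁻¹ • x) := by
      rw [sub_smul, one_smul, smul_smul, mul_inv_cancel₀ hx0.ne', one_smul]; abel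
    rw [e]
    refine (norm_sub_le _ _).trans_lt ?_
    have : ‖(1 - ‖x‖) • (‖x‖⁻¹ • x)‖ = 1 - ‖x‖ := by
      rw [norm_smul, norm_smul, norm_inv, norm_norm, inv_mul_cancel₀ hx0.ne', mul_one,
        Real.norm_eq_abs, abs_of_pos (by linarith)]
    rw [this]
    linarith
  have h2 := (cone_le_shell (d := d) (measurableSet_ball (x := z) (ε := r)) h0 h1).trans
    (measureReal_mono hsub measure_ball_lt_top.ne)
  rw [ball_vol z (by linarith)] at h2
  -- `(r + h)^(d+1) ≤ 3 r^(d+1)`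
  have h3 : (r + h) ^ (d+1) ≤ 3 * r ^ (d+1) := by
    have e : r + h = r * (1 + 1 / D) := by rw [hh]; ring
    rw [e, mul_pow, mul_comm]
    apply mul_le_mul_of_nonneg_right _ (pow_nonneg hr0.le _)
    have h4 : (1 + 1 / D) ^ (d+1) ≤ Real.exp 1 := by
      have h5 : 1 + 1 / D ≤ Real.exp (1 / D) := by
        have := Real.add_one_le_exp (1 / D); linarith
      calc (1 + 1 / D) ^ (d+1) ≤ (Real.exp (1 / D)) ^ (d+1) := by gcongr
        _ = Real.exp 1 := by
          rw [← Real.exp_nat_mul]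
          congr 1
          push_cast
          rw [← hD]; field_simp
    have := Real.exp_one_lt_d9
    linarith
  -- `1 - (1 - h)^(d+1) ≥ r / 2`
  have h4 : r / 2 ≤ 1 - (1 - h) ^ (d+1) := by
    have h5 : (1 - h) ^ (d+1) * (1 + D * h) ≤ 1 := by
      have h6 : 1 + D * h ≤ (1 + h) ^ (d+1) := by
        have := one_add_mul_le_pow (a := h) (by linarith) (d+1)
        push_cast at this
        rw [hD]; exact this
      have h7 : 0 ≤ (1 - h) ^ (d+1) := pow_nonneg (by linarith) _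
      calc (1 - h) ^ (d+1) * (1 + D * h) ≤ (1 - h) ^ (d+1) * (1 + h) ^ (d+1) :=
            mul_le_mul_of_nonneg_left h6 h7
        _ = (1 - h ^ 2) ^ (d+1) := by rw [← mul_pow]; congr 1; ring
        _ ≤ 1 := pow_le_one₀ (by nlinarith) (by nlinarith)
    have h8 : D * h = r := by rw [hh]; field_simp
    rw [h8] at h5
    nlinarith
  have h5 : 0 ≤ (volume : Measure (E (d+1))).real (cn (ball z r) 1) := measureReal_nonneg
  have h6 := om_pos d
  have h7 : r / 2 * (volume : Measure (E (d+1))).real (cn (ball z r) 1) ≤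
      3 * r ^ (d+1) * om d :=
    ((mul_le_mul_of_nonneg_right h4 h5).trans h2).trans (mul_le_mul_of_nonneg_right h3 h6.le)
  have h8 : r * (volume : Measure (E (d+1))).real (cn (ball z r) 1) ≤ r * (6 * r ^ d * om d) := by
    calc _ = 2 * (r / 2 * (volume : Measure (E (d+1))).real (cn (ball z r) 1)) := by ring
      _ ≤ 2 * (3 * r ^ (d+1) * om d) := by linarith
      _ = _ := by ring
  exact le_of_mul_le_mul_left h8 hr0

end Pool.Agent.Helper96.Borsuk
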