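import Mathlib
import Pool.Agent.Helper96.BU
import Pool.Agent.Helper96.Cap
import Pool.Graph.R_pool_sql_team_seeded_c8625f6e.K4H96.HS.BM0

/-!
A proper colouring of the Borsuk graph with `d + 1` colours gives a window which is almost free of
vertices.
-/

open Metric Set Filter Topology MeasureTheory
open scoped NNReal ENNReal Pointwise

namespace Pool.Agent.Helper96.Borsuk

lemma continuous_window {d : ℕ} {C : Set (E (d+1))} (hC : MeasurableSet C) (R : ℝ) (hR : R ≠ 0) :
    Continuous fun z : E (d+1) => (volume : Measure (E (d+1))).real (C ∩ closedBall z R) := by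
  rw [continuous_iff_continuousAt]
  intro z₀
  have e : (fun z : E (d+1) => (volume : Measure (E (d+1))).real (C ∩ closedBall z R)) =
      fun z => ∫ y, (C ∩ closedBall z R).indicator (1 : E (d+1) → ℝ) y := by
    funext z
    rw [integral_indicator_one (hC.inter measurableSet_closedBall)]
  rw [e]
  apply continuousAt_of_dominated (bound := (closedBall z₀ (R+1)).indicator (1 : E (d+1) → ℝ))
  · refine Eventually.of_forall fun z => ?_
    exact (measurable_one.indicator (hC.inter measurableSet_closedBall)).aestronglyMeasurable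
  · filter_upwards [ball_mem_nhds z₀ one_pos] with z hz
    refine Eventually.of_forall fun y => ?_
    by_cases hy : y ∈ C ∩ closedBall z R
    · rw [indicator_of_mem hy, indicator_of_mem]
      · simp
      · have h1 := hy.2
        rw [mem_closedBall] at h1 ⊢
        rw [mem_ball] at hz
        linarith [dist_triangle y z z₀]
    · rw [indicator_of_notMem hy, norm_zero]
      exact indicator_nonneg (fun _ _ => zero_le_one) y
  · rw [integrable_indicator_iff measurableSet_closedBall]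
    exact integrableOn_const (measure_closedBall_lt_top.ne) 
  · have hs : (volume : Measure (E (d+1))) (sphere z₀ R) = 0 := by
      exact Measure.addHaar_sphere_of_ne_zero _ _ hR
    have h2 : ∀ᵐ y ∂(volume : Measure (E (d+1))), y ∉ sphere z₀ R := by
      rw [ae_iff]
      simp only [not_not]
      exact hs
    filter_upwards [h2] with y hy
    have hy' : dist y z₀ ≠ R := hy
    rcases lt_or_gt_of_ne hy' with h3 | h3
    · have h4 : ∀ᶠ z in 𝓝 z₀, dist y z < R :=
        (isOpen_lt (continuous_const.dist continuous_id) continuous_const).mem_nhds h3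
      have : (fun z => (C ∩ closedBall z R).indicator (1 : E (d+1) → ℝ) y) =ᶠ[𝓝 z₀]
          fun _ => C.indicator 1 y := by
        filter_upwards [h4] with z hz
        by_cases hyC : y ∈ C
        · have hyz : y ∈ C ∩ closedBall z R := ⟨hyC, mem_closedBall.2 hz.le⟩
          rw [indicator_of_mem hyC, indicator_of_mem hyz]
        · rw [indicator_of_notMem hyC, indicator_of_notMem fun h => hyC h.1]
      exact this.continuousAt
    · have h4 : ∀ᶠ z in 𝓝 z₀, R < dist y z :=
        (isOpen_lt continuous_const (continuous_const.dist continuous_id)).mem_nhds h3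
      have : (fun z => (C ∩ closedBall z R).indicator (1 : E (d+1) → ℝ) y) =ᶠ[𝓝 z₀]
          fun _ => 0 := by
        filter_upwards [h4] with z hz
        rw [indicator_of_notMem fun h => not_lt.2 (mem_closedBall.1 h.2) hz]
      exact this.continuousAt

/-- The window. -/
lemma window_choice {d : ℕ} (C : Fin (d+1) → Set (E (d+1))) (hC : ∀ k, MeasurableSet (C k))
    (R : ℝ) (hR : R ≠ 0) : ∃ z : E (d+1), ‖z‖ = 1 ∧ ∀ k,
      (volume : Measure (E (d+1))).real (C k ∩ closedBall z R) ≤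
        (volume : Measure (E (d+1))).real (C k ∩ closedBall (-z) R) := by
  let f : Fin (d+1) → E (d+1) → ℝ := fun k z =>
    (volume : Measure (E (d+1))).real (C k ∩ closedBall z R) -
      (volume : Measure (E (d+1))).real (C k ∩ closedBall (-z) R)
  have hfc : ∀ k, Continuous (f k) := fun k =>
    (continuous_window (hC k) R hR).sub ((continuous_window (hC k) R hR).comp continuous_neg)
  have hfo : ∀ k z, f k (-z) = - f k z := by
    intro k z
    simp only [f, neg_neg]; ring
  let g : C(sphere (0 : E (d+1)) 1, E d) :=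
    ⟨fun u => WithLp.toLp 2 fun j : Fin d => f j.succ u - f 0 u, by
      refine (PiLp.continuous_toLp 2 _).comp (continuous_pi fun j => ?_)
      exact ((hfc _).comp continuous_subtype_val).sub ((hfc _).comp continuous_subtype_val)⟩
  obtain ⟨u, hu⟩ := bu_sphere d g (by
    intro u
    ext j
    show f j.succ (-u : E (d+1)) - f 0 (-u : E (d+1)) = -(f j.succ u - f 0 u)
    rw [hfo, hfo]; ring)
  have hall : ∀ k, f k u = f 0 u := by
    intro k
    refine Fin.cases rfl (fun j => ?_) k
    have := congrArg (fun v : E d => v j) hu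
    have h2 : f j.succ u - f 0 u = 0 := this
    linarith
  rcases le_total (f 0 u) 0 with h0 | h0
  · refine ⟨u, norm_sph u, fun k => ?_⟩
    have h1 : f k u ≤ 0 := by rw [hall]; exact h0
    simp only [f] at h1
    linarith
  · refine ⟨-u, by rw [norm_neg]; exact norm_sph u, fun k => ?_⟩
    have h1 : 0 ≤ f k u := by rw [hall]; exact h0
    simp only [f] at h1
    rw [neg_neg]
    linarith

/-- Brunn-Minkowski step. -/
lemma bm_step {d : ℕ} {C : Set (E (d+1))} (hC : IsCompact C) {b R R' : ℝ} (hb : 0 ≤ b)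
    (hsep : ∀ p ∈ C, ∀ q ∈ C, b ≤ ‖p + q‖) (hR' : 0 ≤ R') (hRR : R ^ 2 - b ^ 2 / 4 ≤ R' ^ 2)
    (z : E (d+1))
    (h : (volume : Measure (E (d+1))).real (C ∩ closedBall z R) ≤
      (volume : Measure (E (d+1))).real (C ∩ closedBall (-z) R)) :
    (volume : Measure (E (d+1))).real (C ∩ closedBall z R) ≤
      (volume : Measure (E (d+1))).real (closedBall z R') := by
  have hA : IsCompact (C ∩ closedBall z R) := hC.inter_right isClosed_closedBall
  have hB : IsCompact (-(C ∩ closedBall (-z) R)) := (hC.inter_right isClosed_closedBall).neg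
  have hvB : (volume : Measure (E (d+1))) (-(C ∩ closedBall (-z) R)) =
      (volume : Measure (E (d+1))) (C ∩ closedBall (-z) R) := Measure.measure_neg _ _
  have h' : (volume : Measure (E (d+1))) (C ∩ closedBall z R) ≤
      (volume : Measure (E (d+1))) (C ∩ closedBall (-z) R) :=
    (ENNReal.toReal_le_toReal hA.measure_ne_top
      (hC.inter_right isClosed_closedBall).measure_ne_top).1 h
  have key := Pool.Agent.K4H96.HS.bm_two (volume : Measure (E (d+1))) (1/2) (by norm_num)
    (by norm_num) (C ∩ closedBall z R) (-(C ∩ closedBall (-z) R)) (closedBall z R') hA hB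
    (isCompact_closedBall _ _) (by
      rintro p ⟨hp1, hp2⟩ q hq
      rw [Set.mem_neg] at hq
      obtain ⟨hq1, hq2⟩ := hq
      rw [mem_closedBall, dist_eq_norm] at hp2 hq2 ⊢
      have h1 : ‖q - z‖ ≤ R := by
        rw [sub_neg_eq_add] at hq2
        rw [← norm_neg, neg_sub, sub_eq_neg_add]
        exact hq2
      have h2 : b ≤ ‖(p - z) - (q - z)‖ := by
        have := hsep p hp1 (-q) hq1
        rw [sub_sub_sub_cancel_right, sub_eq_add_neg]; exact this
      have h3 : (1 - 1/2 : ℝ) • p + (1/2 : ℝ) • q - z = (1/2 : ℝ) • ((p - z) + (q - z)) := by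
        module
      rw [h3, norm_smul]
      have h4 : ‖(p - z) + (q - z)‖ ^ 2 +
          ‖(p - z) - (q - z)‖ ^ 2 = 2 * (‖p - z‖ ^ 2 + ‖q - z‖ ^ 2) :=
        parallelogram_law_with_norm ℝ (p - z) (q - z)
      have hR0 : 0 ≤ R := (norm_nonneg _).trans hp2
      have h5 : (‖(1/2 : ℝ)‖ * ‖(p - z) + (q - z)‖) ^ 2 ≤ R' ^ 2 := by
        have e : ‖(1/2 : ℝ)‖ = 1/2 := by norm_num
        rw [e]
        have h6 : ‖p - z‖ * ‖p - z‖ ≤ R * R := mul_self_le_mul_self (norm_nonneg _) hp2
        have h7 : ‖q - z‖ * ‖q - z‖ ≤ R * R := mul_self_le_mul_self (norm_nonneg _) h1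
        have h8 : b * b ≤ ‖(p - z) - (q - z)‖ * ‖(p - z) - (q - z)‖ := mul_self_le_mul_self hb h2
        nlinarith
      exact le_of_sq_le_sq h5 hR')
    ((volume : Measure (E (d+1))) (C ∩ closedBall z R)) le_rfl (by rw [hvB]; exact h')
  exact ENNReal.toReal_mono measure_closedBall_lt_top.ne key

lemma numeric1 {d : ℕ} (hd : 300 ≤ d) :
    256 * ((d:ℝ)+1) ^ 2 * (9/10) ^ (d+1) ≤ (24/25) ^ d := by
  induction d, hd using Nat.le_induction with
  | base =>
    have h : (9/10:ℝ) ^ 100 ≤ (24/25) ^ 100 / 600 := by norm_num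
    have h0 : (0:ℝ) ≤ (9/10) ^ 100 := by positivity
    have h3 : ((9/10:ℝ) ^ 100) ^ 3 ≤ ((24/25) ^ 100 / 600) ^ 3 := pow_le_pow_left₀ h0 h 3
    have e1 : (9/10:ℝ) ^ (300+1) = 9/10 * ((9/10:ℝ) ^ 100) ^ 3 := by
      rw [← pow_mul, pow_succ]; ring
    have e2 : (24/25:ℝ) ^ 300 = ((24/25:ℝ) ^ 100) ^ 3 := by rw [← pow_mul]
    have e3 : ((24/25:ℝ) ^ 100 / 600) ^ 3 = ((24/25:ℝ) ^ 100) ^ 3 / 216000000 := by
      rw [div_pow]; norm_num
    have h4 : (0:ℝ) ≤ ((24/25:ℝ) ^ 100) ^ 3 := by positivity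
    rw [e1, e2]
    rw [e3] at h3
    push_cast
    generalize ((24/25:ℝ) ^ 100) ^ 3 = X at *
    generalize ((9/10:ℝ) ^ 100) ^ 3 = Y at *
    linarith
  | succ d hd ih =>
    have hd' : (300:ℝ) ≤ d := by exact_mod_cast hd
    have h1 : ((d:ℝ) + 1 + 1) ^ 2 * (9/10) ≤ (24/25) * ((d:ℝ)+1) ^ 2 := by nlinarith
    push_cast
    calc 256 * ((d:ℝ) + 1 + 1) ^ 2 * (9/10) ^ (d+1+1)
        = 256 * (((d:ℝ) + 1 + 1) ^ 2 * (9/10)) * (9/10) ^ (d+1) := by ring
      _ ≤ 256 * ((24/25) * ((d:ℝ)+1) ^ 2) * (9/10) ^ (d+1) := by gcongr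
      _ = (24/25) * (256 * ((d:ℝ)+1) ^ 2 * (9/10) ^ (d+1)) := by ring
      _ ≤ (24/25) * (24/25) ^ d := by gcongr
      _ = (24/25) ^ (d+1) := by ring

lemma one_add_pow_le {d : ℕ} {t : ℝ} (ht : 0 ≤ t) (h : t * d ≤ 1/2) : (1 + t) ^ d ≤ 2 := by
  have h1 : 1 + t ≤ Real.exp t := by have := Real.add_one_le_exp t; linarith
  calc (1 + t) ^ d ≤ (Real.exp t) ^ d := by gcongr
    _ = Real.exp (d * t) := (Real.exp_nat_mul _ _).symm
    _ ≤ Real.exp (1/2) := Real.exp_le_exp.2 (by linarith)
    _ ≤ 2 := by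
      have h2 : Real.exp (1/2) ^ 2 = Real.exp 1 := by
        rw [← Real.exp_nat_mul]; norm_num
      have h3 := Real.exp_one_lt_d9
      have h4 := Real.exp_pos (1/2)
      nlinarith

/-- A colouring gives a window with a large vacant part. -/
theorem vacancy {d n : ℕ} (hd : 300 ≤ d) {a : ℝ} (ha : 0 < a) (ha1 : a * (2 * d) ≤ 1)
    (x : Fin n → E (d+1)) (c : Fin n → Fin (d+1))
    (hc : ∀ i j, c i = c j → a ≤ ‖x i + x j‖) :
    ∃ z : E (d+1), ‖z‖ = 1 ∧ (24/25 * a) ^ d / (8 * (d+1)) ≤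
      (unifSphere d).real (Subtype.val ⁻¹'
        {y : E (d+1) | ‖y - z‖ < 31/32 * a ∧ ∀ i, a/32 < ‖y - x i‖}) := by
  classical
  have hd' : (300:ℝ) ≤ d := by exact_mod_cast hd
  have ha2 : a * 600 ≤ 1 := by nlinarith
  let C : Fin (d+1) → Set (E (d+1)) := fun k =>
    ⋃ i ∈ Finset.univ.filter (fun i => c i = k), closedBall (x i) (a/16)
  have hCc : ∀ k, IsCompact (C k) := fun k =>
    Finset.isCompact_biUnion _ fun i _ => isCompact_closedBall _ _
  obtain ⟨z, hz, hw⟩ := window_choice C (fun k => (hCc k).measurableSet) a ha.ne'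
  have hk : ∀ k, (volume : Measure (E (d+1))).real (C k ∩ closedBall z a) ≤
      (9/10 * a) ^ (d+1) * om d := by
    intro k
    rw [← closedBall_vol z (by linarith : 0 < 9/10 * a)]
    refine bm_step (hCc k) (b := 7/8 * a) (by linarith) ?_ (by linarith) (by nlinarith) z (hw k)
    intro p hp q hq
    simp only [C, Finset.mem_filter, Finset.mem_univ, true_and, mem_iUnion, exists_prop] at hp hq
    obtain ⟨i, hi, hpi⟩ := hp
    obtain ⟨j, hj, hqj⟩ := hq
    rw [mem_closedBall, dist_eq_norm] at hpi hqj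
    have h1 := hc i j (hi.trans hj.symm)
    have e : x i + x j = (p + q) - ((p - x i) + (q - x j)) := by abel
    have h2 : ‖x i + x j‖ ≤ ‖p + q‖ + (‖p - x i‖ + ‖q - x j‖) := by
      conv_lhs => rw [e]
      exact (norm_sub_le _ _).trans (by gcongr; exact norm_add_le _ _)
    linarith
  refine ⟨z, hz, ?_⟩
  -- the occupied part of the window
  set A : Set (E (d+1)) := {y | ‖y - z‖ < 31/32 * a ∧ ∃ i, ‖y - x i‖ ≤ a/32} with hA
  have hAm : MeasurableSet A := by
    have e : A = ball z (31/32 * a) ∩ ⋃ i, closedBall (x i) (a/32) := by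
      ext y
      simp only [hA, mem_ofPred_eq, mem_inter_iff, mem_ball, dist_eq_norm, mem_iUnion,
        mem_closedBall]
    rw [e]
    exact measurableSet_ball.inter (MeasurableSet.iUnion fun i => measurableSet_closedBall)
  have hshell : {p : E (d+1) | 1 - a/32 ≤ ‖p‖ ∧ ‖p‖ < 1 ∧ ‖p‖⁻¹ • p ∈ A} ⊆
      ⋃ k, (C k ∩ closedBall z a) := by
    rintro p ⟨hp1, hp2, hp3, i, hi⟩
    have hp0 : 0 < ‖p‖ := by linarith
    have h1 : ‖p - ‖p‖⁻¹ • p‖ ≤ a/32 := by
      have e : p - ‖p‖⁻¹ • p = (‖p‖ - 1) • (‖p‖⁻¹ • p) := by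
        rw [sub_smul, smul_smul, mul_inv_cancel₀ hp0.ne', one_smul, one_smul]
      rw [e, norm_smul, norm_smul, norm_inv, norm_norm, inv_mul_cancel₀ hp0.ne', mul_one,
        Real.norm_eq_abs, abs_of_neg (by linarith)]
      linarith
    have h2 : ‖p - x i‖ ≤ a/16 := by
      have := norm_sub_le_norm_sub_add_norm_sub p (‖p‖⁻¹ • p) (x i)
      linarith
    have h3 : ‖p - z‖ ≤ a := by
      have := norm_sub_le_norm_sub_add_norm_sub p (‖p‖⁻¹ • p) z
      linarith
    simp only [C, mem_iUnion, mem_inter_iff, Finset.mem_filter, Finset.mem_univ, true_and,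
      exists_prop, mem_closedBall, dist_eq_norm]
    exact ⟨c i, ⟨i, rfl, h2⟩, h3⟩
  have hvol : (volume : Measure (E (d+1))).real
      {p : E (d+1) | 1 - a/32 ≤ ‖p‖ ∧ ‖p‖ < 1 ∧ ‖p‖⁻¹ • p ∈ A} ≤
      (d+1) * ((9/10 * a) ^ (d+1) * om d) := by
    refine (measureReal_mono hshell ?_).trans ?_
    · refine ((measure_mono (t := closedBall z a) ?_).trans_lt measure_closedBall_lt_top).ne
      exact iUnion_subset fun k => inter_subset_right
    · refine (measureReal_iUnion_fintype_le _).trans ?_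
      calc ∑ k, (volume : Measure (E (d+1))).real (C k ∩ closedBall z a)
          ≤ ∑ _k : Fin (d+1), (9/10 * a) ^ (d+1) * om d := Finset.sum_le_sum fun k _ => hk k
        _ = _ := by rw [Finset.sum_const, Finset.card_univ, Fintype.card_fin, nsmul_eq_mul]; push_cast; ring
  have hup : (unifSphere d).real (Subtype.val ⁻¹' A) ≤ 32 * (d+1) * (9/10) ^ (d+1) * a ^ d := by
    rw [unif_apply hAm, div_le_iff₀ (om_pos d)]
    have h1 := (cone_le_shell (d := d) hAm (h := a/32) (by linarith) (by linarith)).trans hvol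
    have h2 : a/32 ≤ 1 - (1 - a/32) ^ (d+1) := by
      have h3 : (1 - a/32) ^ (d+1) ≤ (1 - a/32) ^ 1 :=
        pow_le_pow_of_le_one (by linarith) (by linarith) (by omega)
      rw [pow_one] at h3; linarith
    have h4 : 0 ≤ (volume : Measure (E (d+1))).real (cn A 1) := measureReal_nonneg
    have h5 := (mul_le_mul_of_nonneg_right h2 h4).trans h1
    have h6 : a * (volume : Measure (E (d+1))).real (cn A 1) ≤
        a * (32 * (d+1) * (9/10) ^ (d+1) * a ^ d * om d) := by
      calc _ = 32 * (a/32 * (volume : Measure (E (d+1))).real (cn A 1)) := by ring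
        _ ≤ 32 * ((d+1) * ((9/10 * a) ^ (d+1) * om d)) := by linarith
        _ = _ := by rw [mul_pow]; ring
    exact le_of_mul_le_mul_left h6 ha
  have hlow : (24/25 * a) ^ d / (4 * (d+1)) ≤
      (unifSphere d).real (Subtype.val ⁻¹' (ball z (31/32 * a))) := by
    have h1 := cap_lower (d := d) hz (t := 24/25 * a) (r := 31/32 * a) (by linarith)
      (by linarith) (by nlinarith) (by linarith)
    refine le_trans ?_ h1
    have h2 : (1 + 24/25 * a) ^ d ≤ 2 := one_add_pow_le (by linarith) (by nlinarith)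
    have h3 : (0:ℝ) ≤ (24/25 * a) ^ d := by positivity
    apply div_le_div_of_nonneg_left h3 (by positivity)
    nlinarith
  have hdiff : (Subtype.val ⁻¹' {y : E (d+1) | ‖y - z‖ < 31/32 * a ∧ ∀ i, a/32 < ‖y - x i‖} :
      Set (sphere (0 : E (d+1)) 1)) =
      (Subtype.val ⁻¹' (ball z (31/32 * a))) \ (Subtype.val ⁻¹' A) := by
    ext y
    simp only [hA, mem_preimage, mem_ofPred_eq, Set.mem_sdiff, mem_ball, dist_eq_norm, not_and,
      not_exists, not_le]
    constructor
    · rintro ⟨h1, h2⟩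
      exact ⟨h1, fun _ => h2⟩
    · rintro ⟨h1, h2⟩
      exact ⟨h1, h2 h1⟩
  have hsub : (Subtype.val ⁻¹' A : Set (sphere (0 : E (d+1)) 1)) ⊆
      Subtype.val ⁻¹' (ball z (31/32 * a)) := by
    intro y hy
    have h1 : ‖(y : E (d+1)) - z‖ < 31/32 * a := hy.1
    show dist (y : E (d+1)) z < _
    rw [dist_eq_norm]; exact h1
  rw [hdiff, measureReal_sdiff hsub (measurable_subtype_coe hAm)]
  have hnum := numeric1 hd
  have h1 : 32 * ((d:ℝ)+1) * (9/10) ^ (d+1) * a ^ d ≤ (24/25 * a) ^ d / (8 * (d+1)) := by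
    rw [le_div_iff₀ (by positivity), mul_pow]
    have h2 : 0 ≤ a ^ d := by positivity
    calc 32 * ((d:ℝ)+1) * (9/10) ^ (d+1) * a ^ d * (8 * (d+1))
        = (256 * ((d:ℝ)+1) ^ 2 * (9/10) ^ (d+1)) * a ^ d := by ring
      _ ≤ (24/25) ^ d * a ^ d := by gcongr
  have h2 : (24/25 * a) ^ d / (4 * ((d:ℝ)+1)) = 2 * ((24/25 * a) ^ d / (8 * (d+1))) := by
    field_simp; ring
  linarith

end Pool.Agent.Helper96.Borsuk
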