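import Mathlib
import Pool.Agent.Helper96.Vac

/-!
Union bound for colourings and second moment bound for holes.
-/

open Metric Set Filter Topology MeasureTheory
open scoped NNReal ENNReal Pointwise

namespace Pool.Agent.Helper96.Borsuk

/-- The unit sphere of `ℝ^(d+1)` as a type. -/
abbrev S (d : ℕ) := sphere (0 : E (d+1)) 1

lemma exists_net {S : Type*} (R : S → S → Prop) (hR : ∀ s t, R s t → R t s) (B : ℕ)
    (hB : ∀ T : Finset S, (∀ s ∈ T, ∀ t ∈ T, s ≠ t → ¬ R s t) → T.card ≤ B) :
    ∃ T : Finset S, (∀ s ∈ T, ∀ t ∈ T, s ≠ t → ¬ R s t) ∧ ∀ y, ∃ t ∈ T, y = t ∨ R y t := by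
  classical
  let P : ℕ → Prop := fun k => ∃ T : Finset S, (∀ s ∈ T, ∀ t ∈ T, s ≠ t → ¬ R s t) ∧ T.card = k
  have h0 : P 0 := ⟨∅, by simp, by simp⟩
  have hm := Nat.findGreatest_spec (P := P) (Nat.zero_le B) h0
  obtain ⟨T, hT, hc⟩ := hm
  refine ⟨T, hT, fun y => ?_⟩
  by_contra h
  push Not at h
  have hy : y ∉ T := fun hy => (h y hy).1 rfl
  have h1 : ∀ s ∈ insert y T, ∀ t ∈ insert y T, s ≠ t → ¬ R s t := by
    intro s hs t ht hst
    rw [Finset.mem_insert] at hs ht
    rcases hs with rfl | hs <;> rcases ht with rfl | ht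
    · exact absurd rfl hst
    · exact (h t ht).2
    · exact fun hr => (h s hs).2 (hR _ _ hr)
    · exact hT s hs t ht hst
  have h2 : (insert y T).card = T.card + 1 := Finset.card_insert_of_notMem hy
  have h3 : T.card + 1 ≤ B := h2 ▸ hB _ h1
  have h4 : T.card + 1 ≤ Nat.findGreatest P B := Nat.le_findGreatest h3 ⟨_, h1, h2⟩
  omega

/-- The cap with centre `z` and radius `r`. -/
def cap {d : ℕ} (z : E (d+1)) (r : ℝ) : Set (S d) := Subtype.val ⁻¹' (ball z r)

lemma mem_cap {d : ℕ} {z : E (d+1)} {r : ℝ} {y : S d} : y ∈ cap z r ↔ ‖(y : E (d+1)) - z‖ < r := by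
  unfold cap
  rw [mem_preimage, mem_ball, dist_eq_norm]

lemma measurableSet_cap {d : ℕ} (z : E (d+1)) (r : ℝ) : MeasurableSet (cap z r) :=
  measurable_subtype_coe measurableSet_ball

lemma cap_low {d : ℕ} {z : E (d+1)} (hz : ‖z‖ = 1) {r : ℝ} (hr : 0 < r) (hr1 : r ≤ 1)
    (hrd : r * d ≤ 1) : (r/2) ^ d / (4 * (d+1)) ≤ (unifSphere d).real (cap z r) := by
  have h1 := cap_lower (d := d) hz (t := r/2) (r := r) (by linarith) (by linarith)
    (by nlinarith [sq_nonneg r]) hr
  refine le_trans ?_ h1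
  have h2 : (1 + r/2) ^ d ≤ 2 := one_add_pow_le (by linarith) (by linarith)
  apply div_le_div_of_nonneg_left (by positivity) (by positivity)
  have : (0:ℝ) < d + 1 := by positivity
  nlinarith

/-- Packing bound. -/
lemma packing {d : ℕ} {r : ℝ} (hr : 0 < r) (hr1 : r ≤ 1) (hrd : r * d ≤ 1) (T : Finset (S d))
    (hT : ∀ s ∈ T, ∀ t ∈ T, s ≠ t → 2 * r ≤ ‖(s : E (d+1)) - t‖) (W : Set (S d))
    (hW : ∀ t ∈ T, cap (t : E (d+1)) r ⊆ W) :
    (T.card : ℝ) * ((r/2) ^ d / (4 * (d+1))) ≤ (unifSphere d).real W := by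
  have hdisj : (T : Set (S d)).PairwiseDisjoint fun t => cap (t : E (d+1)) r := by
    intro s hs t ht hst
    rw [Function.onFun, Set.disjoint_left]
    intro y hy1 hy2
    rw [mem_cap] at hy1 hy2
    have h1 := hT s hs t ht hst
    have h2 := norm_sub_le_norm_sub_add_norm_sub (s : E (d+1)) y t
    rw [norm_sub_rev (s : E (d+1)) y] at h2
    linarith
  have h1 : (unifSphere d).real (⋃ t ∈ T, cap (t : E (d+1)) r) =
      ∑ t ∈ T, (unifSphere d).real (cap (t : E (d+1)) r) :=
    measureReal_biUnion_finset hdisj fun t _ => measurableSet_cap _ _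
  have h2 : (unifSphere d).real (⋃ t ∈ T, cap (t : E (d+1)) r) ≤ (unifSphere d).real W :=
    measureReal_mono (iUnion₂_subset hW)
  have h3 : (T.card : ℝ) * ((r/2) ^ d / (4 * (d+1))) ≤
      ∑ t ∈ T, (unifSphere d).real (cap (t : E (d+1)) r) := by
    rw [← nsmul_eq_mul, ← Finset.sum_const]
    exact Finset.sum_le_sum fun t _ => cap_low (norm_sph t) hr hr1 hrd
  linarith

instance (d n : ℕ) : IsProbabilityMeasure (law d n) := by unfold law; infer_instance

lemma law_avoid {d n : ℕ} {W : Set (S d)} (hW : MeasurableSet W) :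
    (law d n).real {x | ∀ i, x i ∉ W} = (1 - (unifSphere d).real W) ^ n := by
  have e : {x : Fin n → S d | ∀ i, x i ∉ W} = Set.pi univ fun _ => Wᶜ := by
    ext x; simp
  rw [e]
  unfold law Measure.real
  rw [Measure.pi_pi, ENNReal.toReal_prod]
  simp only [Finset.prod_const, Finset.card_univ, Fintype.card_fin]
  congr 1
  rw [prob_compl_eq_one_sub hW, ENNReal.toReal_sub_of_le prob_le_one ENNReal.one_ne_top]
  simp

/-- The configurations whose Borsuk graph (with chordal parameter `a`) has a proper colouring with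
`d + 1` colours. -/
def colSet (d n : ℕ) (a : ℝ) : Set (Fin n → S d) :=
  {x | ∃ c : Fin n → Fin (d+1), ∀ i j, c i = c j → a ≤ ‖(x i : E (d+1)) + x j‖}

/-- The bound for the number of points of the net in a window. -/
noncomputable def locB (d : ℕ) : ℕ := ⌈24 * ((d:ℝ)+1) * 512 ^ d⌉₊

theorem col_prob {d n : ℕ} (hd : 300 ≤ d) {a : ℝ} (ha : 0 < a) (ha1 : a * (2 * d) ≤ 1) :
    (law d n).real (colSet d n a) ≤
      4 * (d+1) * (256 / a) ^ d * 2 ^ (locB d) *
        (1 - (24/25 * a) ^ d / (8 * (d+1))) ^ n := by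
  classical
  have hd' : (300:ℝ) ≤ d := by exact_mod_cast hd
  have ha2 : a * 600 ≤ 1 := by nlinarith
  set m : ℝ := (24/25 * a) ^ d / (8 * (d+1)) with hm
  have hm0 : 0 ≤ m := by positivity
  -- the net
  have hcard : ∀ T : Finset (S d), (∀ s ∈ T, ∀ t ∈ T, s ≠ t → ¬ ‖(s : E (d+1)) - t‖ < a/64) →
      (T.card : ℝ) ≤ 4 * (d+1) * (256 / a) ^ d := by
    intro T hT
    have h1 := packing (r := a/128) (by linarith) (by linarith) (by nlinarith) T
      (fun s hs t ht hst => by have := hT s hs t ht hst; push Not at this; linarith)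
      univ (fun _ _ => subset_univ _)
    rw [probReal_univ] at h1
    have h2 : (T.card : ℝ) * ((a/128/2) ^ d / (4 * (d+1))) =
        T.card / (4 * (d+1) * (256 / a) ^ d) := by
      rw [div_div, div_pow, div_pow]
      field_simp
      norm_num
    rw [h2, div_le_one (by positivity)] at h1
    exact h1
  obtain ⟨T, hT, hnet⟩ := exists_net (fun s t : S d => ‖(s : E (d+1)) - t‖ < a/64)
    (fun s t h => by rw [norm_sub_rev]; exact h) ⌊4 * ((d:ℝ)+1) * (256 / a) ^ d⌋₊
    (fun T hT => Nat.le_floor (hcard T hT))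
  have hnet' : ∀ y : S d, ∃ t ∈ T, ‖(y : E (d+1)) - t‖ < a/64 := by
    intro y
    obtain ⟨t, ht, h | h⟩ := hnet y
    · refine ⟨t, ht, ?_⟩
      rw [h, sub_self, norm_zero]; linarith
    · exact ⟨t, ht, h⟩
  let N : S d → Finset (S d) := fun w => T.filter fun t => ‖(t : E (d+1)) - w‖ < a
  have hN : ∀ w, (N w).card ≤ locB d := by
    intro w
    have h1 := packing (r := a/128) (by linarith) (by linarith) (by nlinarith) (N w)
      (fun s hs t ht hst => by
        have := hT s (Finset.mem_filter.1 hs).1 t (Finset.mem_filter.1 ht).1 hst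
        push Not at this; linarith)
      (cap (w : E (d+1)) (2 * a)) (fun t ht y hy => by
        rw [mem_cap] at hy ⊢
        have h2 := (Finset.mem_filter.1 ht).2
        have h3 := norm_sub_le_norm_sub_add_norm_sub (y : E (d+1)) t w
        linarith)
    have h2 := h1.trans (cap_upper (d := d) (z := (w : E (d+1))) (r := 2 * a) (by linarith)
      (by linarith) (by omega))
    have h3 : ((N w).card : ℝ) ≤ 24 * ((d:ℝ)+1) * 512 ^ d := by
      have h4 : (0:ℝ) < (a/256) ^ d / (4 * (d+1)) := by positivity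
      have e1 : (a/128/2) ^ d = (a/256) ^ d := by congr 1; ring
      rw [e1] at h2
      have e2 : 6 * (2 * a) ^ d = (24 * ((d:ℝ)+1) * 512 ^ d) * ((a/256) ^ d / (4 * (d+1))) := by
        have : 2 * a = 512 * (a / 256) := by ring
        rw [this, mul_pow]
        field_simp; norm_num
      rw [e2] at h2
      exact le_of_mul_le_mul_right h2 h4
    unfold locB
    exact Nat.cast_le.1 (h3.trans (Nat.le_ceil _))
  let W : Finset (S d) → Set (S d) := fun A => ⋃ t ∈ A, cap (t : E (d+1)) (a/64)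
  have hWm : ∀ A, MeasurableSet (W A) := fun A =>
    Finset.measurableSet_biUnion A fun t _ => measurableSet_cap _ _
  have hcover : colSet d n a ⊆ ⋃ w ∈ T, ⋃ A ∈ (N w).powerset.filter
      (fun A => m ≤ (unifSphere d).real (W A)), {x : Fin n → S d | ∀ i, x i ∉ W A} := by
    rintro x ⟨c, hc⟩
    obtain ⟨z, hz, hv⟩ := vacancy hd ha ha1 (fun i => (x i : E (d+1))) c hc
    set Q : Set (S d) := Subtype.val ⁻¹'
        {y : E (d+1) | ‖y - z‖ < 31/32 * a ∧ ∀ i, a/32 < ‖y - (x i : E (d+1))‖} with hQ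
    obtain ⟨w, hwT, hw⟩ := hnet' ⟨z, by simpa using hz⟩
    have hw' : ‖z - w‖ < a/64 := hw
    let A : Finset (S d) := T.filter fun t => ∃ y ∈ Q, ‖(y : E (d+1)) - t‖ < a/64
    have hQA : Q ⊆ W A := by
      intro y hy
      obtain ⟨t, ht, h⟩ := hnet' y
      simp only [W, mem_iUnion, exists_prop]
      exact ⟨t, Finset.mem_filter.2 ⟨ht, y, hy, h⟩, mem_cap.2 h⟩
    have hA : A ∈ (N w).powerset.filter (fun A => m ≤ (unifSphere d).real (W A)) := by
      rw [Finset.mem_filter, Finset.mem_powerset]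
      refine ⟨?_, hv.trans (measureReal_mono hQA (measure_ne_top _ _))⟩
      intro t ht
      obtain ⟨htT, y, hy, hyt⟩ := Finset.mem_filter.1 ht
      refine Finset.mem_filter.2 ⟨htT, ?_⟩
      have h1 : ‖(y : E (d+1)) - z‖ < 31/32 * a := hy.1
      have h2 := norm_sub_le_norm_sub_add_norm_sub (t : E (d+1)) y w
      have h3 := norm_sub_le_norm_sub_add_norm_sub (y : E (d+1)) z w
      rw [norm_sub_rev (t : E (d+1)) y] at h2
      linarith
    simp only [mem_iUnion, exists_prop]
    refine ⟨w, hwT, A, hA, fun i hi => ?_⟩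
    simp only [W, mem_iUnion, exists_prop] at hi
    obtain ⟨t, ht, hit⟩ := hi
    rw [mem_cap] at hit
    obtain ⟨htT, y, hy, hyt⟩ := Finset.mem_filter.1 ht
    have h1 : a/32 < ‖(y : E (d+1)) - x i‖ := hy.2 i
    have h2 := norm_sub_le_norm_sub_add_norm_sub (y : E (d+1)) t (x i)
    rw [norm_sub_rev (t : E (d+1)) (x i)] at h2
    linarith
  have hm1 : ∀ A, m ≤ (unifSphere d).real (W A) →
      (law d n).real {x : Fin n → S d | ∀ i, x i ∉ W A} ≤ (1 - m) ^ n := by
    intro A hA
    rw [law_avoid (hWm A)]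
    have : (unifSphere d).real (W A) ≤ 1 := measureReal_le_one
    exact pow_le_pow_left₀ (by linarith) (by linarith) n
  have hmle : m ≤ 1 := by
    have h1 : (24/25 * a) ^ d ≤ 1 := pow_le_one₀ (by linarith) (by linarith)
    rw [hm, div_le_one (by positivity)]
    linarith
  calc (law d n).real (colSet d n a)
      ≤ (law d n).real (⋃ w ∈ T, ⋃ A ∈ (N w).powerset.filter
          (fun A => m ≤ (unifSphere d).real (W A)), {x : Fin n → S d | ∀ i, x i ∉ W A}) :=
        measureReal_mono hcover (measure_ne_top _ _)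
    _ ≤ ∑ w ∈ T, (law d n).real (⋃ A ∈ (N w).powerset.filter
          (fun A => m ≤ (unifSphere d).real (W A)), {x : Fin n → S d | ∀ i, x i ∉ W A}) :=
        measureReal_biUnion_finset_le _ _
    _ ≤ ∑ w ∈ T, (2:ℝ) ^ (locB d) * (1 - m) ^ n := by
        apply Finset.sum_le_sum
        intro w _
        refine (measureReal_biUnion_finset_le _ _).trans ?_
        calc ∑ A ∈ (N w).powerset.filter (fun A => m ≤ (unifSphere d).real (W A)),
              (law d n).real {x : Fin n → S d | ∀ i, x i ∉ W A}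
            ≤ ∑ A ∈ (N w).powerset.filter (fun A => m ≤ (unifSphere d).real (W A)), (1 - m) ^ n :=
              Finset.sum_le_sum fun A hA => hm1 A (Finset.mem_filter.1 hA).2
          _ = ((N w).powerset.filter (fun A => m ≤ (unifSphere d).real (W A))).card * (1 - m) ^ n := by
              rw [Finset.sum_const, nsmul_eq_mul]
          _ ≤ (2:ℝ) ^ (locB d) * (1 - m) ^ n := by
              apply mul_le_mul_of_nonneg_right _ (pow_nonneg (by linarith) _)
              calc (((N w).powerset.filter (fun A => m ≤ (unifSphere d).real (W A))).card : ℝ)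
                  ≤ (N w).powerset.card := by exact_mod_cast Finset.card_filter_le _ _
                _ = (2:ℝ) ^ (N w).card := by rw [Finset.card_powerset]; push_cast; rfl
                _ ≤ (2:ℝ) ^ (locB d) := pow_le_pow_right₀ (by norm_num) (hN w)
    _ = T.card * ((2:ℝ) ^ (locB d) * (1 - m) ^ n) := by rw [Finset.sum_const, nsmul_eq_mul]
    _ ≤ 4 * (d+1) * (256 / a) ^ d * ((2:ℝ) ^ (locB d) * (1 - m) ^ n) := by
        apply mul_le_mul_of_nonneg_right (hcard T hT)
        exact mul_nonneg (by positivity) (pow_nonneg (by linarith) _)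
    _ = _ := by ring

end Pool.Agent.Helper96.Borsuk
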