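import Mathlib
import Pool.Agent.Helper96.Prob

/-!
Second moment bound for the existence of a pair of antipodal empty caps.
-/

open Metric Set Filter Topology MeasureTheory
open scoped NNReal ENNReal Pointwise

namespace Pool.Agent.Helper96.Borsuk

/-- Second moment method. -/
lemma second_moment {Ω ι : Type*} [MeasurableSpace Ω] (P : Measure Ω) [IsProbabilityMeasure P]
    (T : Finset ι) (A : ι → Set Ω) (hA : ∀ t ∈ T, MeasurableSet (A t))
    (hneg : ∀ s ∈ T, ∀ t ∈ T, s ≠ t → P.real (A s ∩ A t) ≤ P.real (A s) * P.real (A t)) :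
    P.real (⋂ t ∈ T, (A t)ᶜ) * ∑ t ∈ T, P.real (A t) ≤ 1 := by
  classical
  set e : ℝ := ∑ t ∈ T, P.real (A t) with he
  have he0 : 0 ≤ e := Finset.sum_nonneg fun t _ => measureReal_nonneg
  set B : Set Ω := ⋂ t ∈ T, (A t)ᶜ with hB
  have hBm : MeasurableSet B := Finset.measurableSet_biInter T fun t ht => (hA t ht).compl
  rcases eq_or_lt_of_le he0 with h0 | h0
  · rw [← h0, mul_zero]; exact zero_le_one
  let N : Ω → ℝ := fun w => ∑ t ∈ T, (A t).indicator (1 : Ω → ℝ) w
  have hint : ∀ t ∈ T, Integrable ((A t).indicator (1 : Ω → ℝ)) P := fun t ht =>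
    (integrable_const (1:ℝ)).indicator (hA t ht)
  have hN : Integrable N P := integrable_finsetSum _ hint
  have hN1 : ∫ w, N w ∂P = e := by
    rw [integral_finsetSum _ hint]
    exact Finset.sum_congr rfl fun t ht => integral_indicator_one (hA t ht)
  have hNN : ∀ w, N w ^ 2 = ∑ s ∈ T, ∑ t ∈ T, (A s ∩ A t).indicator (1 : Ω → ℝ) w := by
    intro w
    simp only [N]
    rw [sq, Finset.sum_mul_sum]
    refine Finset.sum_congr rfl fun s _ => Finset.sum_congr rfl fun t _ => ?_
    by_cases h1 : w ∈ A s <;> by_cases h2 : w ∈ A t <;> simp [h1, h2]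
  have hint2 : ∀ s ∈ T, ∀ t ∈ T, Integrable ((A s ∩ A t).indicator (1 : Ω → ℝ)) P :=
    fun s hs t ht => (integrable_const (1:ℝ)).indicator ((hA s hs).inter (hA t ht))
  have hN2i : Integrable (fun w => N w ^ 2) P := by
    simp only [hNN]
    exact integrable_finsetSum _ fun s hs => integrable_finsetSum _ fun t ht => hint2 s hs t ht
  have hN2 : ∫ w, N w ^ 2 ∂P ≤ e + e ^ 2 := by
    simp only [hNN]
    rw [integral_finsetSum _ fun s hs => integrable_finsetSum _ fun t ht => hint2 s hs t ht]
    have h1 : ∀ s ∈ T, ∫ w, ∑ t ∈ T, (A s ∩ A t).indicator (1 : Ω → ℝ) w ∂P ≤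
        P.real (A s) + P.real (A s) * e := by
      intro s hs
      rw [integral_finsetSum _ fun t ht => hint2 s hs t ht]
      rw [← Finset.add_sum_erase T _ hs]
      have h2 : ∫ w, (A s ∩ A s).indicator (1 : Ω → ℝ) w ∂P = P.real (A s) := by
        rw [inter_self, integral_indicator_one (hA s hs)]
      have h3 : ∑ t ∈ T.erase s, ∫ w, (A s ∩ A t).indicator (1 : Ω → ℝ) w ∂P ≤
          P.real (A s) * e := by
        calc ∑ t ∈ T.erase s, ∫ w, (A s ∩ A t).indicator (1 : Ω → ℝ) w ∂P
            ≤ ∑ t ∈ T.erase s, P.real (A s) * P.real (A t) := by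
              apply Finset.sum_le_sum
              intro t ht
              rw [integral_indicator_one ((hA s hs).inter (hA t (Finset.mem_of_mem_erase ht)))]
              exact hneg s hs t (Finset.mem_of_mem_erase ht) (Finset.ne_of_mem_erase ht).symm
          _ = P.real (A s) * ∑ t ∈ T.erase s, P.real (A t) := by rw [Finset.mul_sum]
          _ ≤ P.real (A s) * e := by
              apply mul_le_mul_of_nonneg_left _ measureReal_nonneg
              exact Finset.sum_le_sum_of_subset_of_nonneg (Finset.erase_subset _ _)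
                fun _ _ _ => measureReal_nonneg
      linarith
    calc _ ≤ ∑ s ∈ T, (P.real (A s) + P.real (A s) * e) := Finset.sum_le_sum h1
      _ = e + e ^ 2 := by
        rw [Finset.sum_add_distrib, ← Finset.sum_mul, ← he]; ring
  have hvar : ∫ w, (N w - e) ^ 2 ∂P ≤ e := by
    have h1 : ∀ w, (N w - e) ^ 2 = N w ^ 2 - 2 * e * N w + e ^ 2 := fun w => by ring
    simp only [h1]
    have i1 : Integrable (fun w => 2 * e * N w) P := hN.const_mul _
    have i2 : Integrable (fun w => N w ^ 2 - 2 * e * N w) P := hN2i.sub i1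
    rw [integral_add i2 (integrable_const _), integral_sub hN2i i1, integral_const_mul, hN1,
      integral_const]
    simp only [probReal_univ, smul_eq_mul, one_mul]
    nlinarith
  have hlow : e ^ 2 * P.real B ≤ ∫ w, (N w - e) ^ 2 ∂P := by
    have h1 : e ^ 2 * P.real B = ∫ w, B.indicator (fun _ => e ^ 2) w ∂P := by
      rw [integral_indicator_const _ hBm, smul_eq_mul, mul_comm]
    rw [h1]
    apply integral_mono ((integrable_const _).indicator hBm)
    · have h2 : (fun w => (N w - e) ^ 2) = fun w => N w ^ 2 - 2 * e * N w + e ^ 2 := by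
        funext w; ring
      rw [h2]
      exact (hN2i.sub (hN.const_mul _)).add (integrable_const _)
    · intro w
      by_cases hw : w ∈ B
      · have h3 : N w = 0 := by
          refine Finset.sum_eq_zero fun t ht => ?_
          have : w ∉ A t := by
            have := mem_iInter₂.1 hw t ht
            exact this
          exact indicator_of_notMem this _
        simp only [indicator_of_mem hw, h3]
        nlinarith
      · simp only [indicator_of_notMem hw]
        positivity
  have h5 : e * (P.real B * e) ≤ e * 1 := by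
    calc e * (P.real B * e) = e ^ 2 * P.real B := by ring
      _ ≤ e := hlow.trans hvar
      _ = e * 1 := by ring
  exact le_of_mul_le_mul_left h5 h0

/-- The configurations with a pair of antipodal empty caps of radius `r`. -/
def holeSet (d n : ℕ) (r : ℝ) : Set (Fin n → S d) :=
  {x | ∃ z : E (d+1), ‖z‖ = 1 ∧ ∀ i, r ≤ ‖(x i : E (d+1)) - z‖ ∧ r ≤ ‖(x i : E (d+1)) + z‖}

/-- The pair of caps. -/
def pair {d : ℕ} (z : E (d+1)) (r : ℝ) : Set (S d) := cap z r ∪ cap (-z) r

lemma measurableSet_pair {d : ℕ} (z : E (d+1)) (r : ℝ) : MeasurableSet (pair z r) :=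
  (measurableSet_cap _ _).union (measurableSet_cap _ _)

lemma pair_upper {d : ℕ} (hd : 1 ≤ d) (z : E (d+1)) {r : ℝ} (hr : 0 < r) (hr1 : r ≤ 1) :
    (unifSphere d).real (pair z r) ≤ 12 * r ^ d := by
  have h1 := cap_upper (d := d) (z := z) hr hr1 hd
  have h2 := cap_upper (d := d) (z := -z) hr hr1 hd
  have h3 := measureReal_union_le (μ := unifSphere d) (cap z r) (cap (-z) r)
  unfold pair
  unfold cap at *
  linarith

theorem hole_prob {d n : ℕ} (hd : 1 ≤ d) {r : ℝ} (hr : 0 < r) (hr1 : r * (2 * d) ≤ 1)
    (hrs : 24 * r ^ d ≤ 1) :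
    (law d n).real (holeSet d n r)ᶜ * ((1 - 12 * r ^ d) ^ n / (12 * (2 * r) ^ d)) ≤ 1 := by
  classical
  have hd' : (1:ℝ) ≤ d := by exact_mod_cast hd
  have hr2 : r * 2 ≤ 1 := by nlinarith
  let R : S d → S d → Prop := fun s t =>
    ‖(s : E (d+1)) - t‖ < 2 * r ∨ ‖(s : E (d+1)) + t‖ < 2 * r
  obtain ⟨T, hT, hnet⟩ := exists_net R
    (fun s t h => by
      rcases h with h | h
      · left; rw [norm_sub_rev]; exact h
      · right; rw [add_comm (t : E (d+1)) (s : E (d+1))]; exact h)
    ⌊(4 * ((d:ℝ)+1)) / (r/2) ^ d⌋₊ (fun T hT => by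
      apply Nat.le_floor
      have h1 := packing (r := r) hr (by linarith) (by linarith) T
        (fun s hs t ht hst => by
          have := hT s hs t ht hst
          simp only [R] at this
          push Not at this
          exact this.1)
        univ (fun _ _ => subset_univ _)
      rw [probReal_univ] at h1
      rw [le_div_iff₀ (by positivity)]
      have h2 : (0:ℝ) < 4 * (d+1) := by positivity
      rw [mul_div_assoc', div_le_one h2] at h1
      exact h1)
  -- the covering bound
  have hcov : (1:ℝ) ≤ T.card * (12 * (2 * r) ^ d) := by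
    have h1 : (univ : Set (S d)) ⊆ ⋃ t ∈ T, pair (t : E (d+1)) (2 * r) := by
      intro y _
      obtain ⟨t, ht, h⟩ := hnet y
      simp only [mem_iUnion, exists_prop]
      refine ⟨t, ht, ?_⟩
      rcases h with h | h | h
      · left; rw [mem_cap, h, sub_self, norm_zero]; linarith
      · left; rw [mem_cap]; exact h
      · right; rw [mem_cap, sub_neg_eq_add]; exact h
    have h2 := measureReal_mono (μ := unifSphere d) h1 (measure_ne_top _ _)
    rw [probReal_univ] at h2
    refine h2.trans ((measureReal_biUnion_finset_le _ _).trans ?_)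
    rw [← nsmul_eq_mul, ← Finset.sum_const]
    exact Finset.sum_le_sum fun t _ => pair_upper hd _ (by linarith) (by linarith)
  let A : S d → Set (Fin n → S d) := fun t => {x | ∀ i, x i ∉ pair (t : E (d+1)) r}
  have hAm : ∀ t, MeasurableSet (A t) := by
    intro t
    have e : A t = Set.pi univ fun _ => (pair (t : E (d+1)) r)ᶜ := by
      ext x; simp [A]
    rw [e]
    exact MeasurableSet.univ_pi fun _ => (measurableSet_pair _ _).compl
  have hPA : ∀ t, (law d n).real (A t) = (1 - (unifSphere d).real (pair (t : E (d+1)) r)) ^ n :=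
    fun t => law_avoid (measurableSet_pair _ _)
  have hneg : ∀ s ∈ T, ∀ t ∈ T, s ≠ t →
      (law d n).real (A s ∩ A t) ≤ (law d n).real (A s) * (law d n).real (A t) := by
    intro s hs t ht hst
    have hdis : Disjoint (pair (s : E (d+1)) r) (pair (t : E (d+1)) r) := by
      rw [Set.disjoint_left]
      intro y hy1 hy2
      have h1 := hT s hs t ht hst
      simp only [R] at h1
      push Not at h1
      obtain ⟨h1, h2⟩ := h1
      simp only [pair, mem_union, mem_cap, sub_neg_eq_add] at hy1 hy2
      rcases hy1 with h3 | h3 <;> rcases hy2 with h4 | h4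
      · have := norm_sub_le_norm_sub_add_norm_sub (s : E (d+1)) y t
        rw [norm_sub_rev (s : E (d+1)) y] at this
        linarith
      · have e : (s : E (d+1)) + t = -((y : E (d+1)) - s) + (y + t) := by abel
        have : ‖(s : E (d+1)) + t‖ ≤ ‖(y : E (d+1)) - s‖ + ‖(y : E (d+1)) + t‖ := by
          rw [e]; exact (norm_add_le _ _).trans (by rw [norm_neg])
        linarith
      · have e : (s : E (d+1)) + t = ((y : E (d+1)) + s) - (y - t) := by abel
        have : ‖(s : E (d+1)) + t‖ ≤ ‖(y : E (d+1)) + s‖ + ‖(y : E (d+1)) - t‖ := by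
          rw [e]; exact norm_sub_le _ _
        linarith
      · have e : (s : E (d+1)) - t = ((y : E (d+1)) + s) - (y + t) := by abel
        have : ‖(s : E (d+1)) - t‖ ≤ ‖(y : E (d+1)) + s‖ + ‖(y : E (d+1)) + t‖ := by
          rw [e]; exact norm_sub_le _ _
        linarith
    have e : A s ∩ A t = {x : Fin n → S d | ∀ i, x i ∉ pair (s : E (d+1)) r ∪
        pair (t : E (d+1)) r} := by
      ext x
      simp only [A, mem_inter_iff, mem_ofPred_eq, mem_union, not_or]
      exact ⟨fun h i => ⟨h.1 i, h.2 i⟩, fun h => ⟨fun i => (h i).1, fun i => (h i).2⟩⟩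
    rw [e, law_avoid ((measurableSet_pair _ _).union (measurableSet_pair _ _)), hPA, hPA,
      ← mul_pow, measureReal_union hdis (measurableSet_pair _ _)]
    have h1 : (unifSphere d).real (pair (s : E (d+1)) r) ≤ 12 * r ^ d :=
      pair_upper hd _ hr (by linarith)
    have h2 : (unifSphere d).real (pair (t : E (d+1)) r) ≤ 12 * r ^ d :=
      pair_upper hd _ hr (by linarith)
    have h3 : 0 ≤ (unifSphere d).real (pair (s : E (d+1)) r) := measureReal_nonneg
    have h4 : 0 ≤ (unifSphere d).real (pair (t : E (d+1)) r) := measureReal_nonneg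
    apply pow_le_pow_left₀ (by linarith)
    nlinarith
  have h1 := second_moment (law d n) T A (fun t _ => hAm t) hneg
  have h2 : (holeSet d n r)ᶜ ⊆ ⋂ t ∈ T, (A t)ᶜ := by
    intro x hx
    simp only [mem_iInter]
    intro t ht hxt
    apply hx
    refine ⟨t, norm_sph t, fun i => ?_⟩
    have := hxt i
    simp only [pair, mem_union, mem_cap, sub_neg_eq_add, not_or, not_lt] at this
    exact this
  have h3 := measureReal_mono (μ := law d n) h2 (measure_ne_top _ _)
  have h4 : (1 - 12 * r ^ d) ^ n / (12 * (2 * r) ^ d) ≤ ∑ t ∈ T, (law d n).real (A t) := by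
    have h5 : (T.card : ℝ) * (1 - 12 * r ^ d) ^ n ≤ ∑ t ∈ T, (law d n).real (A t) := by
      rw [← nsmul_eq_mul, ← Finset.sum_const]
      apply Finset.sum_le_sum
      intro t _
      rw [hPA]
      have := pair_upper hd (t : E (d+1)) hr (by linarith)
      exact pow_le_pow_left₀ (by linarith) (by linarith) n
    refine le_trans ?_ h5
    rw [div_le_iff₀ (by positivity)]
    have h6 : 0 ≤ (1 - 12 * r ^ d) ^ n := pow_nonneg (by linarith) _
    nlinarith
  calc (law d n).real (holeSet d n r)ᶜ * ((1 - 12 * r ^ d) ^ n / (12 * (2 * r) ^ d))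
      ≤ (law d n).real (⋂ t ∈ T, (A t)ᶜ) * ∑ t ∈ T, (law d n).real (A t) := by
        apply mul_le_mul h3 h4 _ measureReal_nonneg
        exact div_nonneg (pow_nonneg (by linarith) _) (by positivity)
    _ ≤ 1 := h1

end Pool.Agent.Helper96.Borsuk
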