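import Mathlib
import Pool.Agent.Helper96.Defs

/-!
Two retractions on the neighbourhood complex: `tau` makes supports smaller, `alp` gives a point
whose support is completely adjacent to the support of `tau`.
-/

open Metric Set Filter Topology MeasureTheory
open scoped NNReal ENNReal unitInterval

set_option linter.unusedSectionVars false

namespace Pool.Agent.Helper96.Borsuk

variable {V : Type*} [Fintype V] (H : SimpleGraph V)

/-- All vertices of the support of `p` are adjacent to all vertices of the support of `q`. -/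
def Orth (p q : V → ℝ) : Prop := ∀ x y, p x ≠ 0 → q y ≠ 0 → H.Adj x y

variable {H}

lemma Orth.symm {p q : V → ℝ} (h : Orth H p q) : Orth H q p :=
  fun x y hx hy => (h y x hy hx).symm

lemma mem_nbhd_iff {p : V → ℝ} : p ∈ nbhdComplex H ↔
    (∀ v, 0 ≤ p v) ∧ ∑ v, p v = 1 ∧ ∃ w, ∀ v, p v ≠ 0 → H.Adj w v := by
  unfold nbhdComplex
  simp only [mem_ofPred_eq, finsum_eq_sum_of_fintype]

lemma exists_ne_of_mem {p : V → ℝ} (hp : p ∈ nbhdComplex H) : ∃ v, p v ≠ 0 := by
  by_contra h
  push Not at h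
  have := (mem_nbhd_iff.1 hp).2.1
  simp [h] at this

/-- Convex combinations of two points orthogonal to a given point. -/
lemma comb_mem {r p q : V → ℝ} (hr : r ∈ nbhdComplex H) (hp : p ∈ nbhdComplex H)
    (hq : q ∈ nbhdComplex H) (hrp : Orth H r p) (hrq : Orth H r q) {s : ℝ} (hs : s ∈ Icc (0:ℝ) 1) :
    (1 - s) • p + s • q ∈ nbhdComplex H ∧ Orth H r ((1 - s) • p + s • q) := by
  have hO : Orth H r ((1 - s) • p + s • q) := by
    intro x y hx hy
    by_cases hpy : p y = 0
    · have : q y ≠ 0 := by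
        intro hqy
        apply hy
        simp [hpy, hqy]
      exact hrq x y hx this
    · exact hrp x y hx hpy
  refine ⟨mem_nbhd_iff.2 ⟨?_, ?_, ?_⟩, hO⟩
  · intro v
    have h1 := (mem_nbhd_iff.1 hp).1 v
    have h2 := (mem_nbhd_iff.1 hq).1 v
    simp only [Pi.add_apply, Pi.smul_apply, smul_eq_mul]
    have := hs.1
    have := hs.2
    have h3 : 0 ≤ 1 - s := by linarith
    positivity
  · simp only [Pi.add_apply, Pi.smul_apply, smul_eq_mul, Finset.sum_add_distrib]
    rw [← Finset.mul_sum, ← Finset.mul_sum, (mem_nbhd_iff.1 hp).2.1, (mem_nbhd_iff.1 hq).2.1]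
    ring
  · obtain ⟨x, hx⟩ := exists_ne_of_mem hr
    exact ⟨x, fun v hv => hO x v hx hv⟩

/-- The threshold. -/
noncomputable def eta (V : Type*) [Fintype V] : ℝ := 1 / (2 * Fintype.card V)

lemma eta_nonneg : 0 ≤ eta V := by unfold eta; positivity

lemma card_mul_eta_le : (Fintype.card V : ℝ) * eta V ≤ 1 / 2 := by
  unfold eta
  rcases eq_or_ne (Fintype.card V : ℝ) 0 with h | h
  · rw [h]; norm_num
  · field_simp; rfl

noncomputable def tauRaw (p : V → ℝ) (x : V) : ℝ := max (p x - eta V) 0

/-- Cut off the small weights. -/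
noncomputable def tau (p : V → ℝ) : V → ℝ := fun x => tauRaw p x / ∑ y, tauRaw p y

variable (H) in
noncomputable def phi (p : V → ℝ) (w : V) : ℝ :=
  open Classical in ∏ x, if H.Adj w x then (1:ℝ) else max (eta V - p x) 0

variable (H) in
/-- Weights on the vertices adjacent to all vertices with large weight. -/
noncomputable def alp (p : V → ℝ) : V → ℝ := fun x => phi H p x / ∑ y, phi H p y

lemma tauRaw_nonneg (p : V → ℝ) (x : V) : 0 ≤ tauRaw p x := le_max_right _ _

lemma phi_nonneg (p : V → ℝ) (x : V) : 0 ≤ phi H p x := by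
  classical
  unfold phi
  apply Finset.prod_nonneg
  intro y _
  split_ifs
  · exact zero_le_one
  · exact le_max_right _ _

lemma exists_large {p : V → ℝ} (hp : p ∈ nbhdComplex H) : ∃ x, eta V < p x := by
  by_contra h
  push Not at h
  have h1 := (mem_nbhd_iff.1 hp).2.1
  have h2 : ∑ v, p v ≤ ∑ _v : V, eta V := Finset.sum_le_sum fun v _ => h v
  rw [Finset.sum_const, Finset.card_univ, nsmul_eq_mul] at h2
  have := card_mul_eta_le (V := V)
  linarith

lemma tauRaw_ne {p : V → ℝ} {x : V} : tauRaw p x ≠ 0 ↔ eta V < p x := by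
  unfold tauRaw
  constructor
  · intro h
    by_contra h'
    push Not at h'
    exact h (max_eq_right (by linarith))
  · intro h h'
    have := le_max_left (p x - eta V) 0
    rw [h'] at this
    linarith

lemma tau_sum_pos {p : V → ℝ} (hp : p ∈ nbhdComplex H) : 0 < ∑ y, tauRaw p y := by
  obtain ⟨x, hx⟩ := exists_large hp
  refine Finset.sum_pos' (fun y _ => tauRaw_nonneg p y) ⟨x, Finset.mem_univ x, ?_⟩
  exact lt_of_le_of_ne (tauRaw_nonneg p x) (tauRaw_ne.2 hx).symm

lemma eta_pos [Nonempty V] : 0 < eta V := by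
  unfold eta
  have : 0 < (Fintype.card V : ℝ) := by exact_mod_cast Fintype.card_pos
  positivity

lemma phi_sum_pos {p : V → ℝ} (hp : p ∈ nbhdComplex H) : 0 < ∑ y, phi H p y := by
  classical
  obtain ⟨-, -, w, hw⟩ := mem_nbhd_iff.1 hp
  have : Nonempty V := ⟨w⟩
  refine Finset.sum_pos' (fun y _ => phi_nonneg p y) ⟨w, Finset.mem_univ w, ?_⟩
  unfold phi
  apply Finset.prod_pos
  intro x _
  split_ifs with h
  · exact zero_lt_one
  · have : p x = 0 := by
      by_contra h'
      exact h (hw x h')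
    rw [this, sub_zero]
    exact lt_max_of_lt_left eta_pos

lemma tau_ne {p : V → ℝ} (hp : p ∈ nbhdComplex H) {x : V} : tau p x ≠ 0 ↔ eta V < p x := by
  unfold tau
  rw [div_ne_zero_iff]
  constructor
  · intro h; exact tauRaw_ne.1 h.1
  · intro h; exact ⟨tauRaw_ne.2 h, (tau_sum_pos hp).ne'⟩

lemma phi_ne {p : V → ℝ} {w : V} (h : phi H p w ≠ 0) {x : V} (hx : eta V < p x) : H.Adj w x := by
  classical
  unfold phi at h
  rw [Finset.prod_ne_zero_iff] at h
  have := h x (Finset.mem_univ x)
  by_contra h'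
  rw [if_neg h'] at this
  exact this (max_eq_right (by linarith))

lemma orth_tau_alp {p : V → ℝ} (hp : p ∈ nbhdComplex H) : Orth H (tau p) (alp H p) := by
  intro x y hx hy
  have h1 := (tau_ne hp).1 hx
  have h2 : phi H p y ≠ 0 := by
    intro h
    apply hy
    unfold alp
    rw [h, zero_div]
  exact (phi_ne h2 h1).symm

lemma tau_supp {p : V → ℝ} (hp : p ∈ nbhdComplex H) {x : V} (h : tau p x ≠ 0) : p x ≠ 0 := by
  have h1 := (tau_ne hp).1 h
  have := eta_nonneg (V := V)
  exact (by linarith : 0 < p x).ne'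

lemma tau_mem {p : V → ℝ} (hp : p ∈ nbhdComplex H) : tau p ∈ nbhdComplex H := by
  refine mem_nbhd_iff.2 ⟨fun v => div_nonneg (tauRaw_nonneg _ _) (tau_sum_pos hp).le, ?_, ?_⟩
  · unfold tau
    rw [← Finset.sum_div, div_self (tau_sum_pos hp).ne']
  · obtain ⟨-, -, w, hw⟩ := mem_nbhd_iff.1 hp
    exact ⟨w, fun v hv => hw v (tau_supp hp hv)⟩

lemma alp_mem {p : V → ℝ} (hp : p ∈ nbhdComplex H) : alp H p ∈ nbhdComplex H := by
  refine mem_nbhd_iff.2 ⟨fun v => div_nonneg (phi_nonneg _ _) (phi_sum_pos hp).le, ?_, ?_⟩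
  · unfold alp
    rw [← Finset.sum_div, div_self (phi_sum_pos hp).ne']
  · obtain ⟨x, hx⟩ := exists_ne_of_mem (tau_mem hp)
    exact ⟨x, fun v hv => orth_tau_alp hp x v hx hv⟩

lemma orth_tau {r p : V → ℝ} (hp : p ∈ nbhdComplex H) (h : Orth H r p) : Orth H r (tau p) :=
  fun x y hx hy => h x y hx (tau_supp hp hy)

lemma continuousOn_tau : ContinuousOn (tau : (V → ℝ) → V → ℝ) (nbhdComplex H) := by
  rw [continuousOn_pi]
  intro x
  have h1 : ∀ y : V, Continuous (fun p : V → ℝ => tauRaw p y) := by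
    intro y
    unfold tauRaw
    fun_prop
  unfold tau
  exact ((h1 x).continuousOn).div (continuous_finsetSum _ fun y _ => h1 y).continuousOn
    fun p hp => (tau_sum_pos hp).ne'

lemma continuousOn_alp : ContinuousOn (alp H : (V → ℝ) → V → ℝ) (nbhdComplex H) := by
  classical
  rw [continuousOn_pi]
  intro x
  have h1 : ∀ y : V, Continuous (fun p : V → ℝ => phi H p y) := by
    intro y
    unfold phi
    refine continuous_finsetProd _ fun z _ => ?_
    split_ifs
    · exact continuous_const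
    · fun_prop
  unfold alp
  exact ((h1 x).continuousOn).div (continuous_finsetSum _ fun y _ => h1 y).continuousOn
    fun p hp => (phi_sum_pos hp).ne'

end Pool.Agent.Helper96.Borsuk
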