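import Mathlib
import Pool.Agent.Helper96.Nbhd
import Pool.Agent.Helper96.BU

/-!
If all maps from the sphere of `ℝ^m` to the neighbourhood complex are null-homotopic then a map
`F` from this sphere with `F u` orthogonal to `F (-u)` gives one from the sphere of `ℝ^(m+1)`.
-/

open Metric Set Filter Topology MeasureTheory
open scoped NNReal ENNReal unitInterval

set_option linter.unusedSectionVars false

namespace Pool.Agent.Helper96.Borsuk

/-- All but the last coordinate. -/
noncomputable def wc {m : ℕ} (y : E (m+1)) : E m := WithLp.toLp 2 (fun j : Fin m => y j.castSucc)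

/-- The last coordinate. -/
def tc {m : ℕ} (y : E (m+1)) : ℝ := y (Fin.last m)

lemma continuous_wc {m : ℕ} : Continuous (wc : E (m+1) → E m) := by
  unfold wc
  fun_prop

lemma continuous_tc {m : ℕ} : Continuous (tc : E (m+1) → ℝ) := by
  unfold tc
  fun_prop

lemma wc_neg {m : ℕ} (y : E (m+1)) : wc (-y) = - wc y := by
  ext j; simp [wc]

lemma tc_neg {m : ℕ} (y : E (m+1)) : tc (-y) = - tc y := by
  simp [tc]

lemma eq_zero_of_wc_tc {m : ℕ} {y : E (m+1)} (h1 : wc y = 0) (h2 : tc y = 0) : y = 0 := by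
  ext j
  refine Fin.lastCases ?_ (fun i => ?_) j
  · exact h2
  · have := congrArg (fun z : E m => z i) h1
    simpa [wc] using this

/-- Clamp to the unit interval. -/
noncomputable def cl (s : ℝ) : I := projIcc 0 1 zero_le_one s

lemma continuous_cl : Continuous cl := continuous_projIcc (h := zero_le_one)

lemma cl_of_le {s : ℝ} (h : s ≤ 0) : cl s = 0 := projIcc_of_le_left zero_le_one h

lemma cl_of_ge {s : ℝ} (h : 1 ≤ s) : cl s = 1 := projIcc_of_right_le zero_le_one h

variable {V : Type*} [Fintype V] {H : SimpleGraph V}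

/-- `tau` as a map of the neighbourhood complex. -/
noncomputable def tauX : C(nbhdComplex H, nbhdComplex H) where
  toFun p := ⟨tau p, tau_mem p.2⟩
  continuous_toFun := Continuous.subtype_mk
    (continuousOn_iff_continuous_domRestrict.1 continuousOn_tau) _

/-- `alp` as a map of the neighbourhood complex. -/
noncomputable def alpX : C(nbhdComplex H, nbhdComplex H) where
  toFun p := ⟨alp H p, alp_mem p.2⟩
  continuous_toFun := Continuous.subtype_mk
    (continuousOn_iff_continuous_domRestrict.1 continuousOn_alp) _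

section Step

variable {m : ℕ} (F : C(sphere (0 : E m) 1, nbhdComplex H)) (c0 : nbhdComplex H)
  (K : ContinuousMap.Homotopy F (ContinuousMap.const _ c0))

/-- The first component. -/
noncomputable def Uf (p : ℝ × sphere (0 : E m) 1) : V → ℝ :=
  (1 - (cl p.1 : ℝ)) • (K (cl (p.1 - 2), p.2) : V → ℝ) +
    (cl p.1 : ℝ) • (tauX (K (cl (p.1 - 2), p.2)) : V → ℝ)

/-- The second component. -/
noncomputable def Lf (p : ℝ × sphere (0 : E m) 1) : V → ℝ :=
  (1 - (cl (p.1 - 1) : ℝ)) • (F (-p.2) : V → ℝ) +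
    (cl (p.1 - 1) : ℝ) • (alpX (K (cl (p.1 - 2), p.2)) : V → ℝ)

lemma continuous_K' : Continuous fun p : ℝ × sphere (0 : E m) 1 => K (cl (p.1 - 2), p.2) := by
  refine K.continuous.comp (Continuous.prodMk (continuous_cl.comp ?_) continuous_snd)
  fun_prop

lemma continuous_Uf : Continuous (Uf F c0 K) := by
  unfold Uf
  have h1 : Continuous fun p : ℝ × sphere (0 : E m) 1 => (cl p.1 : ℝ) :=
    continuous_subtype_val.comp (continuous_cl.comp continuous_fst)
  have h2 := continuous_K' F c0 K
  exact ((continuous_const.sub h1).smul (continuous_subtype_val.comp h2)).add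
    (h1.smul (continuous_subtype_val.comp (tauX.continuous.comp h2)))

lemma continuous_Lf : Continuous (Lf F c0 K) := by
  unfold Lf
  have h1 : Continuous fun p : ℝ × sphere (0 : E m) 1 => (cl (p.1 - 1) : ℝ) :=
    continuous_subtype_val.comp (continuous_cl.comp (by fun_prop))
  have h2 := continuous_K' F c0 K
  have h3 : Continuous fun p : ℝ × sphere (0 : E m) 1 => F (-p.2) :=
    F.continuous.comp (continuous_snd.neg)
  exact ((continuous_const.sub h1).smul (continuous_subtype_val.comp h3)).add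
    (h1.smul (continuous_subtype_val.comp (alpX.continuous.comp h2)))

lemma Uf_Lf (hF : ∀ u, Orth H (F u) (F (-u))) (p : ℝ × sphere (0 : E m) 1) :
    Uf F c0 K p ∈ nbhdComplex H ∧ Lf F c0 K p ∈ nbhdComplex H ∧
      Orth H (Uf F c0 K p) (Lf F c0 K p) := by
  obtain ⟨s, u⟩ := p
  unfold Uf Lf
  simp only
  rcases le_or_gt s 2 with hs | hs
  · -- the argument of `K` is zero
    have e : K (cl (s - 2), u) = F u := by
      rw [cl_of_le (by linarith)]
      exact K.apply_zero u
    rw [e]
    rcases le_or_gt s 1 with hs1 | hs1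
    · have e1 : cl (s - 1) = 0 := cl_of_le (by linarith)
      rw [e1]
      have h1 := comb_mem (r := (F (-u) : V → ℝ)) (F (-u)).2 (F u).2 (tau_mem (F u).2)
        (hF u).symm (orth_tau (F u).2 (hF u).symm) (s := (cl s : ℝ)) (cl s).2
      have e3 : (1 - ((0 : I) : ℝ)) • (F (-u) : V → ℝ) +
          ((0 : I) : ℝ) • (alpX (F u) : V → ℝ) = F (-u) := by simp
      rw [e3]
      exact ⟨h1.1, (F (-u)).2, h1.2.symm⟩
    · have e1 : cl s = 1 := cl_of_ge hs1.le
      rw [e1]
      have h1 := comb_mem (r := tau (F u : V → ℝ)) (tau_mem (F u).2) (F (-u)).2 (alp_mem (F u).2)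
        (orth_tau (F u).2 (hF u).symm).symm (orth_tau_alp (F u).2) (s := (cl (s - 1) : ℝ))
        (cl (s - 1)).2
      have e3 : (1 - ((1 : I) : ℝ)) • (F u : V → ℝ) +
          ((1 : I) : ℝ) • (tauX (F u) : V → ℝ) = tau (F u : V → ℝ) := by
        have e4 : (tauX (F u) : V → ℝ) = tau (F u : V → ℝ) := rfl
        rw [e4]; simp
      rw [e3]
      exact ⟨tau_mem (F u).2, h1.1, h1.2⟩
  · have e1 : cl s = 1 := cl_of_ge (by linarith)
    have e2 : cl (s - 1) = 1 := cl_of_ge (by linarith)
    rw [e1, e2]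
    simp only [Icc.coe_one, sub_self, zero_smul, zero_add, one_smul]
    exact ⟨tau_mem (K (cl (s - 2), u)).2, alp_mem (K (cl (s - 2), u)).2,
      orth_tau_alp (K (cl (s - 2), u)).2⟩

lemma Uf_zero (u : sphere (0 : E m) 1) : Uf F c0 K (0, u) = F u := by
  unfold Uf
  simp only
  rw [cl_of_le (le_refl (0:ℝ)), cl_of_le (by norm_num)]
  have : K (0, u) = F u := K.apply_zero u
  rw [this]
  simp

lemma Lf_zero (u : sphere (0 : E m) 1) : Lf F c0 K (0, u) = F (-u) := by
  unfold Lf
  simp only
  rw [cl_of_le (show (0:ℝ) - 1 ≤ 0 by norm_num)]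
  simp

lemma Uf_three {s : ℝ} (hs : 3 ≤ s) (u : sphere (0 : E m) 1) :
    Uf F c0 K (s, u) = tau (c0 : V → ℝ) := by
  unfold Uf
  simp only
  rw [cl_of_ge (show 1 ≤ s by linarith), cl_of_ge (show 1 ≤ s - 2 by linarith)]
  have : K (1, u) = c0 := K.apply_one u
  rw [this]
  simp only [Icc.coe_one, sub_self, zero_smul, zero_add, one_smul]
  rfl

lemma Lf_three {s : ℝ} (hs : 3 ≤ s) (u : sphere (0 : E m) 1) :
    Lf F c0 K (s, u) = alp H (c0 : V → ℝ) := by
  unfold Lf
  simp only
  rw [cl_of_ge (show 1 ≤ s - 1 by linarith), cl_of_ge (show 1 ≤ s - 2 by linarith)]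
  have : K (1, u) = c0 := K.apply_one u
  rw [this]
  simp only [Icc.coe_one, sub_self, zero_smul, zero_add, one_smul]
  rfl

/-- Radial projection of the first coordinates. -/
noncomputable def un {y : E (m+1)} (h : wc y ≠ 0) : sphere (0 : E m) 1 :=
  ⟨‖wc y‖⁻¹ • wc y, by simp [norm_smul, h]⟩

open Classical in
/-- The new map. -/
noncomputable def Gf (y : E (m+1)) : V → ℝ :=
  if h : wc y = 0 then (if 0 < tc y then tau (c0 : V → ℝ) else alp H (c0 : V → ℝ))
  else if 0 ≤ tc y then Uf F c0 K (|tc y| / ‖wc y‖, un h) else Lf F c0 K (|tc y| / ‖wc y‖, - un h)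

lemma Gf_mem (hF : ∀ u, Orth H (F u) (F (-u))) (y : E (m+1)) : Gf F c0 K y ∈ nbhdComplex H := by
  unfold Gf
  split_ifs with h1 h2 h3
  · exact tau_mem c0.2
  · exact alp_mem c0.2
  · exact (Uf_Lf F c0 K hF _).1
  · exact (Uf_Lf F c0 K hF _).2.1

lemma un_neg {y : E (m+1)} (h : wc y ≠ 0) (h' : wc (-y) ≠ 0) : un h' = - un h := by
  apply Subtype.ext
  simp [un, wc_neg]

lemma Gf_orth (hF : ∀ u, Orth H (F u) (F (-u))) {y : E (m+1)} (hy : y ≠ 0) :
    Orth H (Gf F c0 K y) (Gf F c0 K (-y)) := by
  by_cases h : wc y = 0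
  · have h' : wc (-y) = 0 := by rw [wc_neg, h, neg_zero]
    have ht : tc y ≠ 0 := fun ht => hy (eq_zero_of_wc_tc h ht)
    unfold Gf
    rw [dif_pos h, dif_pos h', tc_neg]
    rcases lt_or_gt_of_ne ht with h1 | h1
    · rw [if_neg (by linarith), if_pos (by linarith)]
      exact (orth_tau_alp c0.2).symm
    · rw [if_pos h1, if_neg (by linarith)]
      exact (orth_tau_alp c0.2)
  · have h' : wc (-y) ≠ 0 := by rw [wc_neg]; exact neg_ne_zero.2 h
    unfold Gf
    rw [dif_neg h, dif_neg h', un_neg h h', tc_neg, abs_neg]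
    have hn : ‖wc (-y)‖ = ‖wc y‖ := by rw [wc_neg, norm_neg]
    rw [hn]
    rcases lt_trichotomy (tc y) 0 with h1 | h1 | h1
    · rw [if_neg (by linarith), if_pos (by linarith)]
      exact (Uf_Lf F c0 K hF _).2.2.symm
    · rw [h1]
      simp only [neg_zero, le_refl, if_true, abs_zero, zero_div]
      rw [Uf_zero, Uf_zero]
      exact hF _
    · rw [if_pos (by linarith), if_neg (by linarith), neg_neg]
      exact (Uf_Lf F c0 K hF _).2.2

lemma Gf_continuousAt {y : E (m+1)} (hy : y ≠ 0) : ContinuousAt (Gf F c0 K) y := by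
  by_cases h : wc y = 0
  · have ht : tc y ≠ 0 := fun ht => hy (eq_zero_of_wc_tc h ht)
    -- locally constant
    have hcon : ∀ᶠ y' in 𝓝 y, 3 * ‖wc y'‖ < |tc y'| := by
      have h1 : Continuous (fun y' : E (m+1) => 3 * ‖wc y'‖) :=
        continuous_const.mul continuous_wc.norm
      have h2 : Continuous (fun y' : E (m+1) => |tc y'|) := continuous_tc.abs
      apply (isOpen_lt h1 h2).mem_nhds
      show 3 * ‖wc y‖ < |tc y|
      rw [h, norm_zero, mul_zero]
      exact abs_pos.2 ht
    rcases lt_or_gt_of_ne ht with h1 | h1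
    · have hs : ∀ᶠ y' in 𝓝 y, tc y' < 0 :=
        (isOpen_lt continuous_tc continuous_const).mem_nhds h1
      have : Gf F c0 K =ᶠ[𝓝 y] fun _ => alp H (c0 : V → ℝ) := by
        filter_upwards [hcon, hs] with y' h3 h4
        unfold Gf
        split_ifs with h5 h6 h7
        · exact absurd h6 (by linarith)
        · rfl
        · exact absurd h7 (by linarith)
        · apply Lf_three
          rw [le_div_iff₀ (norm_pos_iff.2 h5)]
          exact h3.le
      exact this.continuousAt
    · have hs : ∀ᶠ y' in 𝓝 y, 0 < tc y' :=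
        (isOpen_lt continuous_const continuous_tc).mem_nhds h1
      have : Gf F c0 K =ᶠ[𝓝 y] fun _ => tau (c0 : V → ℝ) := by
        filter_upwards [hcon, hs] with y' h3 h4
        unfold Gf
        split_ifs with h5 h7
        · rfl
        · apply Uf_three
          rw [le_div_iff₀ (norm_pos_iff.2 h5)]
          exact h3.le
        · exact absurd h4.le h7
      exact this.continuousAt
  · have ho : IsOpen {y : E (m+1) | wc y ≠ 0} := isOpen_ne.preimage continuous_wc
    refine ContinuousOn.continuousAt ?_ (ho.mem_nhds h)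
    rw [continuousOn_iff_continuous_domRestrict]
    have e : Set.domRestrict {y : E (m+1) | wc y ≠ 0} (Gf F c0 K) =
        fun y : {y : E (m+1) | wc y ≠ 0} => if 0 ≤ tc (y : E (m+1)) then
          Uf F c0 K (|tc (y : E (m+1))| / ‖wc (y : E (m+1))‖, un y.2) else
          Lf F c0 K (|tc (y : E (m+1))| / ‖wc (y : E (m+1))‖, - un y.2) := by
      funext y
      simp only [Set.domRestrict_apply]
      unfold Gf
      rw [dif_neg (show ¬ wc (y : E (m+1)) = 0 from y.2)]
    rw [e]
    have c1 : Continuous fun y : {y : E (m+1) | wc y ≠ 0} => tc (y : E (m+1)) :=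
      continuous_tc.comp continuous_subtype_val
    have c2 : Continuous fun y : {y : E (m+1) | wc y ≠ 0} => wc (y : E (m+1)) :=
      continuous_wc.comp continuous_subtype_val
    have c3 : Continuous fun y : {y : E (m+1) | wc y ≠ 0} => (un y.2 : sphere (0 : E m) 1) := by
      refine Continuous.subtype_mk ?_ _
      exact (c2.norm.inv₀ fun y => norm_ne_zero_iff.2 y.2).smul c2
    have c4 : Continuous fun y : {y : E (m+1) | wc y ≠ 0} =>
        |tc (y : E (m+1))| / ‖wc (y : E (m+1))‖ :=
      c1.abs.div c2.norm fun y => norm_ne_zero_iff.2 y.2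
    refine Continuous.if_le ((continuous_Uf F c0 K).comp (c4.prodMk c3))
      ((continuous_Lf F c0 K).comp (c4.prodMk c3.neg)) continuous_const c1 ?_
    intro y hy0
    simp only [← hy0, abs_zero, zero_div]
    rw [Uf_zero, Lf_zero, neg_neg]

end Step

/-- The induction step. -/
theorem step {m : ℕ} (hnull : ∀ F : C(sphere (0 : E m) 1, nbhdComplex H), F.Nullhomotopic)
    (hT : ∃ F : C(sphere (0 : E m) 1, nbhdComplex H), ∀ u, Orth H (F u) (F (-u))) :
    ∃ F : C(sphere (0 : E (m+1)) 1, nbhdComplex H), ∀ u, Orth H (F u) (F (-u)) := by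
  obtain ⟨F, hF⟩ := hT
  obtain ⟨c0, ⟨K⟩⟩ := hnull F
  have hne : ∀ u : sphere (0 : E (m+1)) 1, (u : E (m+1)) ≠ 0 := by
    intro u h
    have := norm_sph u
    rw [h] at this; simp at this
  refine ⟨⟨fun u => ⟨Gf F c0 K u, Gf_mem F c0 K hF u⟩, ?_⟩, ?_⟩
  · refine Continuous.subtype_mk ?_ _
    rw [continuous_iff_continuousAt]
    intro u
    exact (Gf_continuousAt F c0 K (hne u)).comp continuous_subtype_val.continuousAt
  · intro u
    exact Gf_orth F c0 K hF (hne u)

/-- A graph whose vertices can be represented by vectors of `ℝ^d` such that adjacent vertices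
have negative scalar products has no neighbourhood complex homotopy equivalent to the sphere of
dimension `d`. -/
theorem no_sphere {d : ℕ} (P : V → E d) (hP : ∀ x y, H.Adj x y → inner ℝ (P x) (P y) < 0)
    (e : ContinuousMap.HomotopyEquiv (nbhdComplex H) (sphere (0 : E (d+1)) 1)) : False := by
  have hnull : ∀ m : ℕ, m ≤ d → ∀ F : C(sphere (0 : E m) 1, nbhdComplex H), F.Nullhomotopic := by
    intro m hm F
    have h1 : ((e.toFun).comp F).Nullhomotopic := nullhomotopic_of_lt (by omega) _
    have h2 := h1.comp_right e.invFun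
    obtain ⟨c, hc⟩ := h2
    refine ⟨c, ContinuousMap.Homotopic.trans ?_ hc⟩
    have h3 := (ContinuousMap.Homotopic.comp e.left_inv (ContinuousMap.Homotopic.refl F)).symm
    exact h3
  have hT : ∀ m : ℕ, m ≤ d + 1 →
      ∃ F : C(sphere (0 : E m) 1, nbhdComplex H), ∀ u, Orth H (F u) (F (-u)) := by
    intro m
    induction m with
    | zero =>
      intro _
      have hem : IsEmpty (sphere (0 : E 0) 1) := by
        constructor
        intro u
        have := norm_sph u
        rw [Subsingleton.elim (u : E 0) 0] at this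
        simp at this
      exact ⟨⟨fun u => (hem.false u).elim, by
        rw [continuous_iff_continuousAt]; exact fun u => (hem.false u).elim⟩,
        fun u => (hem.false u).elim⟩
    | succ m ih =>
      intro hm
      exact step (hnull m (by omega)) (ih (by omega))
  obtain ⟨F, hF⟩ := hT (d+1) le_rfl
  let g : C(sphere (0 : E (d+1)) 1, E d) :=
    ⟨fun u => ∑ v, (F u : V → ℝ) v • P v - ∑ v, (F (-u) : V → ℝ) v • P v, by
      have c1 : ∀ v : V, Continuous fun u => (F u : V → ℝ) v := fun v =>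
        (continuous_apply v).comp (continuous_subtype_val.comp F.continuous)
      have c2 : ∀ v : V, Continuous fun u => (F (-u) : V → ℝ) v := fun v =>
        (c1 v).comp continuous_neg
      exact (continuous_finsetSum _ fun v _ => (c1 v).smul continuous_const).sub
        (continuous_finsetSum _ fun v _ => (c2 v).smul continuous_const)⟩
  obtain ⟨u, hu⟩ := bu_sphere d g (by
    intro u
    show ∑ v, (F (-u) : V → ℝ) v • P v - ∑ v, (F (- -u) : V → ℝ) v • P v =
      -(∑ v, (F u : V → ℝ) v • P v - ∑ v, (F (-u) : V → ℝ) v • P v)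
    rw [neg_neg, neg_sub])
  have hu' : ∑ v, (F u : V → ℝ) v • P v = ∑ v, (F (-u) : V → ℝ) v • P v := sub_eq_zero.1 hu
  have h1 : inner ℝ (∑ v, (F u : V → ℝ) v • P v) (∑ v, (F (-u) : V → ℝ) v • P v) < 0 := by
    rw [sum_inner]
    simp_rw [inner_sum, inner_smul_left, inner_smul_right]
    have hnn : ∀ x y, (F u : V → ℝ) x * ((F (-u) : V → ℝ) y * inner ℝ (P x) (P y)) ≤ 0 := by
      intro x y
      by_cases hx : (F u : V → ℝ) x = 0
      · rw [hx, zero_mul]
      by_cases hy : (F (-u) : V → ℝ) y = 0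
      · rw [hy, zero_mul, mul_zero]
      have h2 := hP x y (hF u x y hx hy)
      have h3 := (mem_nbhd_iff.1 (F u).2).1 x
      have h4 := (mem_nbhd_iff.1 (F (-u)).2).1 y
      exact mul_nonpos_of_nonneg_of_nonpos h3 (mul_nonpos_of_nonneg_of_nonpos h4 h2.le)
    obtain ⟨x, hx⟩ := exists_ne_of_mem (F u).2
    obtain ⟨y, hy⟩ := exists_ne_of_mem (F (-u)).2
    have h2 := hP x y (hF u x y hx hy)
    have h3 : 0 < (F u : V → ℝ) x := lt_of_le_of_ne ((mem_nbhd_iff.1 (F u).2).1 x) (Ne.symm hx)
    have h4 : 0 < (F (-u) : V → ℝ) y :=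
      lt_of_le_of_ne ((mem_nbhd_iff.1 (F (-u)).2).1 y) (Ne.symm hy)
    refine Finset.sum_neg' (fun x _ => Finset.sum_nonpos fun y _ => hnn x y) ⟨x, Finset.mem_univ x, ?_⟩
    refine Finset.sum_neg' (fun y _ => hnn x y) ⟨y, Finset.mem_univ y, ?_⟩
    exact mul_neg_of_pos_of_neg h3 (mul_neg_of_pos_of_neg h4 h2)
  rw [hu'] at h1
  exact absurd h1 (not_lt.2 real_inner_self_nonneg)

end Pool.Agent.Helper96.Borsuk
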