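import Mathlib
import Pool.Agent.Helper96.Step
import Pool.Agent.Helper96.Hole

/-!
The hitting angles of the chromatic and of the topological property are different.
-/

open Metric Set Filter Topology MeasureTheory
open scoped NNReal ENNReal Pointwise

namespace Pool.Agent.Helper96.Borsuk

lemma exists_proj {d : ℕ} {z : E (d+1)} (hz : ‖z‖ = 1) : ∃ P : E (d+1) → E d,
    ∀ x y, inner ℝ (P x) (P y) = inner ℝ x y - inner ℝ x z * inner ℝ y z := by
  have hz0 : z ≠ 0 := by
    intro h; rw [h] at hz; simp at hz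
  have : Fact (Module.finrank ℝ (E (d+1)) = d + 1) := ⟨by simp⟩
  let b := OrthonormalBasis.fromOrthogonalSpanSingleton (𝕜 := ℝ) d hz0
  refine ⟨fun x => b.repr ((Submodule.span ℝ {z})ᗮ.orthogonalProjectionOnto x), fun x y => ?_⟩
  rw [LinearIsometryEquiv.inner_map_map, Submodule.coe_inner]
  have h1 : ∀ y : E (d+1), ((((Submodule.span ℝ {z})ᗮ).orthogonalProjectionOnto y :
      (Submodule.span ℝ {z})ᗮ) : E (d+1)) = y - inner ℝ z y • z := by
    intro y
    have h2 : ((((Submodule.span ℝ {z})ᗮ).orthogonalProjectionOnto y :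
      (Submodule.span ℝ {z})ᗮ) : E (d+1)) = ((Submodule.span ℝ {z})ᗮ).starProjection y := rfl
    rw [h2, Submodule.starProjection_orthogonal_val, Submodule.starProjection_singleton]
    simp [hz]
  rw [h1, h1, inner_sub_right, inner_sub_left, inner_sub_left, inner_smul_right, inner_smul_right,
    inner_smul_left, inner_smul_left, real_inner_self_eq_norm_sq, hz, real_inner_comm z y,
    real_inner_comm z x]
  simp

/-- Adjacency in the Borsuk graph. -/
lemma adj_iff {d n : ℕ} {x : Fin n → S d} {α : ℝ} (h0 : 0 ≤ α) (hpi : α ≤ Real.pi) (i j : Fin n) :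
    (borsukGraph x α).Adj i j ↔ i ≠ j ∧ inner ℝ (x i : E (d+1)) (x j) < - Real.cos α := by
  have h0' : (borsukGraph x α).Adj i j ↔ i ≠ j ∧
      Real.pi - α < InnerProductGeometry.angle (x i : E (d+1)) (x j) := by
    unfold borsukGraph
    rw [SimpleGraph.fromRel_adj]
    unfold geoDist
    rw [InnerProductGeometry.angle_comm (x j : E (d+1)) (x i), or_self]
  rw [h0']
  have h1 : Real.cos (InnerProductGeometry.angle (x i : E (d+1)) (x j)) =
      inner ℝ (x i : E (d+1)) (x j) := by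
    rw [InnerProductGeometry.cos_angle, norm_sph, norm_sph]; simp
  rw [← h1, ← Real.cos_pi_sub]
  constructor
  · rintro ⟨h2, h3⟩
    refine ⟨h2, Real.cos_lt_cos_of_nonneg_of_le_pi (by linarith)
      (InnerProductGeometry.angle_le_pi _ _) h3⟩
  · rintro ⟨h2, h3⟩
    refine ⟨h2, ?_⟩
    by_contra h4
    push Not at h4
    have := Real.cos_le_cos_of_nonneg_of_le_pi (InnerProductGeometry.angle_nonneg _ _)
      (by linarith) h4
    linarith

/-- Antipodal empty caps prevent the topological property. -/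
theorem not_spherical_of_hole {d n : ℕ} {x : Fin n → S d} {a : ℝ} (ha : 0 < a) (ha1 : a ≤ 1/2)
    (hx : x ∈ holeSet d n (3/4 * a)) {α : ℝ} (h0 : 0 ≤ α) (hα : α ≤ a) :
    ¬ HasSphericalSubgraph (d+1) (borsukGraph x α) := by
  classical
  rintro ⟨H, ⟨e⟩⟩
  obtain ⟨z, hz, hzx⟩ := hx
  obtain ⟨P, hP⟩ := exists_proj hz
  have : Fintype H.verts := Fintype.ofFinite _
  refine no_sphere (H := H.coe) (fun v => P (x v)) ?_ e
  intro v w hvw
  rw [hP]
  have hadj : (borsukGraph x α).Adj v w := H.adj_sub hvw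
  have hpi : α ≤ Real.pi := by have := Real.pi_gt_three; linarith
  rw [adj_iff h0 hpi] at hadj
  have h1 := hadj.2
  have h2 : 1 - α ^ 2 / 2 ≤ Real.cos α := Real.one_sub_sq_div_two_le_cos
  have h3 : α ^ 2 ≤ a ^ 2 := pow_le_pow_left₀ h0 hα 2
  have key : ∀ u : Fin n, |inner ℝ (x u : E (d+1)) z| ≤ 1 - (3/4 * a) ^ 2 / 2 := by
    intro u
    obtain ⟨h4, h5⟩ := hzx u
    have h6 : ‖(x u : E (d+1)) - z‖ ^ 2 = 2 - 2 * inner ℝ (x u : E (d+1)) z := by
      rw [norm_sub_sq_real, norm_sph, hz]; ring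
    have h7 : ‖(x u : E (d+1)) + z‖ ^ 2 = 2 + 2 * inner ℝ (x u : E (d+1)) z := by
      rw [norm_add_sq_real, norm_sph, hz]; ring
    have h8 : (3/4 * a) ^ 2 ≤ ‖(x u : E (d+1)) - z‖ ^ 2 := pow_le_pow_left₀ (by linarith) h4 2
    have h9 : (3/4 * a) ^ 2 ≤ ‖(x u : E (d+1)) + z‖ ^ 2 := pow_le_pow_left₀ (by linarith) h5 2
    rw [abs_le]
    constructor <;> linarith
  have h4 := key v
  have h5 := key w
  have h6 : |inner ℝ (x v : E (d+1)) z * inner ℝ (x w : E (d+1)) z| ≤
      (1 - (3/4 * a) ^ 2 / 2) * (1 - (3/4 * a) ^ 2 / 2) := by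
    rw [abs_mul]
    exact mul_le_mul h4 h5 (abs_nonneg _) (by nlinarith)
  have h7 := neg_abs_le (inner ℝ (x v : E (d+1)) z * inner ℝ (x w : E (d+1)) z)
  have h8 : (1 - (3/4 * a) ^ 2 / 2) * (1 - (3/4 * a) ^ 2 / 2) =
      1 - 9/16 * a ^ 2 + 81/1024 * (a ^ 2 * a ^ 2) := by ring
  have h9 : 0 < a ^ 2 := by positivity
  have h10 : a ^ 2 ≤ 1/4 := by nlinarith
  have h11 : a ^ 2 * a ^ 2 ≤ 1/4 * a ^ 2 := mul_le_mul_of_nonneg_right h10 h9.le
  linarith

/-- Without a colouring in the chordal sense the chromatic number is large. -/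
theorem chromatic_of_not_col {d n : ℕ} {x : Fin n → S d} {b θ : ℝ} (hb2 : b ≤ 2)
    (h0 : 0 ≤ θ) (hpi : θ ≤ Real.pi) (hbθ : b ^ 2 ≤ 2 - 2 * Real.cos θ)
    (hx : x ∉ colSet d n b) : ChromaticAbove (d+1) (borsukGraph x θ) := by
  unfold ChromaticAbove
  rw [← not_le, SimpleGraph.chromaticNumber_le_iff_colorable]
  rintro ⟨C⟩
  apply hx
  refine ⟨fun i => C i, fun i j hij => ?_⟩
  have h1 : ¬ (borsukGraph x θ).Adj i j := fun h => C.valid h hij
  rw [adj_iff h0 hpi] at h1
  push Not at h1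
  by_cases hij' : i = j
  · subst hij'
    rw [← two_smul ℝ (x i : E (d+1)), norm_smul, norm_sph]
    simpa using hb2
  · have h2 := h1 hij'
    have h3 : ‖(x i : E (d+1)) + x j‖ ^ 2 = 2 + 2 * inner ℝ (x i : E (d+1)) (x j) := by
      rw [norm_add_sq_real, norm_sph, norm_sph]; ring
    have h4 : b ^ 2 ≤ ‖(x i : E (d+1)) + x j‖ ^ 2 := by rw [h3]; linarith
    exact le_of_sq_le_sq h4 (norm_nonneg _)

/-- The separation of the hitting angles, for a given configuration. -/
theorem separation {d n : ℕ} {x : Fin n → S d} {θ : ℝ} (hθ : 0 < θ) (hθ1 : θ ≤ 1/4)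
    (hcol : x ∉ colSet d n (11/12 * θ)) (hhole : x ∈ holeSet d n (3/4 * (11/10 * θ))) :
    hittingAngle (ChromaticAbove (d+1)) x ≤ (θ : EReal) ∧
      ((11/10 * θ : ℝ) : EReal) ≤ hittingAngle (HasSphericalSubgraph (d+1)) x := by
  have hpi : θ ≤ Real.pi := by have := Real.pi_gt_three; linarith
  constructor
  · have h1 : ChromaticAbove (d+1) (borsukGraph x θ) := by
      refine chromatic_of_not_col (b := 11/12 * θ) (by linarith) hθ.le hpi ?_ hcol
      have h2 := Real.cos_bound (x := θ) (by rw [abs_of_pos hθ]; linarith)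
      rw [abs_of_pos hθ] at h2
      have h3 := (abs_le.1 h2).2
      have h5 : θ ^ 2 ≤ 1/16 := by nlinarith
      have h4 : θ ^ 4 ≤ 1/16 * θ ^ 2 := by
        have e : θ ^ 4 = θ ^ 2 * θ ^ 2 := by ring
        rw [e]
        exact mul_le_mul_of_nonneg_right h5 (sq_nonneg _)
      nlinarith [sq_nonneg θ]
    unfold hittingAngle
    exact iInf_le (fun α : {α : ℝ // 0 ≤ α ∧ α ≤ Real.pi ∧
      ChromaticAbove (d+1) (borsukGraph x α)} => ((α : ℝ) : EReal)) ⟨θ, hθ.le, hpi, h1⟩
  · unfold hittingAngle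
    refine le_iInf fun α => ?_
    obtain ⟨α, h0, _, h2⟩ := α
    rw [EReal.coe_le_coe_iff]
    by_contra h
    push Not at h
    exact not_spherical_of_hole (a := 11/10 * θ) (by linarith) (by linarith) hhole h0 h.le h2

/-- The radius of the empty caps. -/
noncomputable def rn (d n : ℕ) : ℝ := (Real.log n / (48 * n)) ^ ((d:ℝ)⁻¹)

lemma rn_pow {d : ℕ} (hd : d ≠ 0) (n : ℕ) : rn d n ^ d = Real.log n / (48 * n) :=
  Real.rpow_inv_natCast_pow (div_nonneg (Real.log_natCast_nonneg n) (by positivity)) hd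

lemma rn_pos (d : ℕ) {n : ℕ} (hn : 2 ≤ n) : 0 < rn d n := by
  unfold rn
  apply Real.rpow_pos_of_pos
  have h1 : (1:ℝ) < n := by exact_mod_cast hn
  exact div_pos (Real.log_pos h1) (by linarith)

lemma log_div_tendsto : Tendsto (fun n : ℕ => Real.log n / n) atTop (𝓝 0) := by
  have h1 := Real.tendsto_pow_log_div_mul_add_atTop 1 0 1 one_ne_zero
  simp only [pow_one, one_mul, add_zero] at h1
  exact h1.comp tendsto_natCast_atTop_atTop

lemma rn_tendsto {d : ℕ} (hd : d ≠ 0) : Tendsto (rn d) atTop (𝓝 0) := by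
  have h1 : Tendsto (fun n : ℕ => Real.log n / (48 * n)) atTop (𝓝 0) := by
    have h2 := log_div_tendsto.const_mul (1/48)
    rw [mul_zero] at h2
    refine h2.congr fun n => ?_
    rw [div_mul_div_comm, one_mul]
  have h2 : (0:ℝ) < (d:ℝ)⁻¹ := by positivity
  have h3 := h1.rpow_const (p := (d:ℝ)⁻¹) (Or.inr h2.le)
  rwa [Real.zero_rpow h2.ne'] at h3

lemma exp_le_one_sub {u : ℝ} (h0 : 0 ≤ u) (h1 : u ≤ 1/2) : Real.exp (-(2 * u)) ≤ 1 - u := by
  rw [Real.exp_neg]
  have h2 := Real.add_one_le_exp (2 * u)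
  have h3 : 0 < 2 * u + 1 := by linarith
  calc (Real.exp (2 * u))⁻¹ ≤ (2 * u + 1)⁻¹ := inv_anti₀ h3 h2
    _ ≤ 1 - u := by
      rw [inv_le_iff_one_le_mul₀ h3]
      nlinarith

theorem hole_tendsto {d : ℕ} (hd : 1 ≤ d) :
    Tendsto (fun n => (law d n).real (holeSet d n (rn d n))ᶜ) atTop (𝓝 0) := by
  have hd0 : d ≠ 0 := by omega
  have hd' : (1:ℝ) ≤ d := by exact_mod_cast hd
  have hlim : Tendsto (fun n : ℕ => (2:ℝ) ^ d / 2 *
      ((Real.log n / 2) * Real.exp (-(Real.log n / 2)))) atTop (𝓝 0) := by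
    have h1 := Real.tendsto_pow_mul_exp_neg_atTop_nhds_zero 1
    simp only [pow_one] at h1
    have h2 : Tendsto (fun n : ℕ => Real.log n / 2) atTop atTop :=
      (Real.tendsto_log_atTop.comp tendsto_natCast_atTop_atTop).atTop_div_const (by norm_num)
    have h3 := (h1.comp h2).const_mul ((2:ℝ) ^ d / 2)
    rw [mul_zero] at h3
    exact h3
  have h1 : ∀ᶠ n : ℕ in atTop, rn d n < 1 / (2 * d) :=
    (rn_tendsto hd0).eventually (gt_mem_nhds (by positivity))
  have h2 : ∀ᶠ n : ℕ in atTop, Real.log n / n < 2 :=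
    log_div_tendsto.eventually (gt_mem_nhds (by norm_num))
  refine squeeze_zero' (Eventually.of_forall fun n => measureReal_nonneg) ?_ hlim
  filter_upwards [h1, h2, eventually_ge_atTop 2] with n h3 h4 h5
  have hn : (0:ℝ) < n := by
    have : (2:ℝ) ≤ n := by exact_mod_cast h5
    linarith
  have hr := rn_pos d h5
  have h6 : rn d n * (2 * d) ≤ 1 := by
    rw [lt_div_iff₀ (by positivity)] at h3; exact h3.le
  have hL := Real.log_natCast_nonneg n
  set L := Real.log n with hLdef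
  have h7 : 12 * rn d n ^ d = L / (4 * n) := by
    rw [rn_pow hd0, ← hLdef]; field_simp; ring
  have h8 : L / (4 * n) ≤ 1/2 := by
    rw [div_le_iff₀ (by positivity)]
    rw [div_lt_iff₀ hn] at h4
    linarith
  have h9 := hole_prob (n := n) hd hr h6 (by
    have : 24 * rn d n ^ d = 2 * (12 * rn d n ^ d) := by ring
    rw [this, h7]; linarith)
  rw [h7] at h9
  have h10 : Real.exp (-(L / 2)) ≤ (1 - L / (4 * n)) ^ n := by
    have h11 := exp_le_one_sub (u := L / (4 * n)) (div_nonneg hL (by positivity)) h8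
    calc Real.exp (-(L / 2)) = (Real.exp (-(2 * (L / (4 * n))))) ^ n := by
          rw [← Real.exp_nat_mul]; congr 1; field_simp; norm_num
      _ ≤ _ := pow_le_pow_left₀ (Real.exp_pos _).le h11 n
  have h11 : 12 * (2 * rn d n) ^ d = 2 ^ d * (L / (4 * n)) := by
    rw [mul_pow, ← h7]; ring
  rw [h11] at h9
  have h12 : 0 ≤ (law d n).real (holeSet d n (rn d n))ᶜ := measureReal_nonneg
  have hLpos : 0 < L := Real.log_pos (by exact_mod_cast h5)
  have h13 : 0 < 2 ^ d * (L / (4 * n)) := by positivity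
  rw [mul_div_assoc', div_le_one h13] at h9
  have h14 : (law d n).real (holeSet d n (rn d n))ᶜ * Real.exp (-(L / 2)) ≤
      2 ^ d * (L / (4 * n)) := (mul_le_mul_of_nonneg_left h10 h12).trans h9
  have h15 : Real.exp (-(L / 2)) * Real.exp (-(L / 2)) = 1 / n := by
    rw [← Real.exp_add]
    have : -(L / 2) + -(L / 2) = -L := by ring
    rw [this, Real.exp_neg, hLdef, Real.exp_log hn, one_div]
  have h16 := Real.exp_pos (-(L / 2))
  have h17 : (law d n).real (holeSet d n (rn d n))ᶜ * Real.exp (-(L / 2)) ≤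
      ((2:ℝ) ^ d / 2 * ((L / 2) * Real.exp (-(L / 2)))) * Real.exp (-(L / 2)) := by
    refine h14.trans (le_of_eq ?_)
    calc (2:ℝ) ^ d * (L / (4 * n)) = 2 ^ d / 2 * (L / 2) * (1 / n) := by field_simp; norm_num
      _ = _ := by rw [← h15]; ring
  exact le_of_mul_le_mul_right h17 h16

lemma numeric2 {d : ℕ} (hd : 300 ≤ d) : 768 * ((d:ℝ)+1) ≤ (16/15) ^ d := by
  induction d, hd using Nat.le_induction with
  | base =>
    have h : (62:ℝ) ≤ (16/15) ^ 64 := by norm_num
    have h0 : (62:ℝ) ^ 4 ≤ ((16/15:ℝ) ^ 64) ^ 4 := pow_le_pow_left₀ (by norm_num) h 4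
    have h1 : ((16/15:ℝ) ^ 64) ^ 4 = (16/15) ^ 256 := by rw [← pow_mul]
    have h2 : (16/15:ℝ) ^ 256 ≤ (16/15) ^ 300 := pow_le_pow_right₀ (by norm_num) (by norm_num)
    rw [h1] at h0
    have h3 : (768:ℝ) * ((300:ℕ) + 1) ≤ 62 ^ 4 := by norm_num
    exact (h3.trans h0).trans h2
  | succ d hd ih =>
    have hd' : (300:ℝ) ≤ d := by exact_mod_cast hd
    push_cast
    calc 768 * ((d:ℝ) + 1 + 1) ≤ (16/15) * (768 * ((d:ℝ)+1)) := by nlinarith
      _ ≤ (16/15) * (16/15) ^ d := by gcongr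
      _ = (16/15) ^ (d+1) := by ring

theorem col_tendsto {d : ℕ} (hd : 300 ≤ d) :
    Tendsto (fun n => (law d n).real (colSet d n (10/9 * rn d n))) atTop (𝓝 0) := by
  have hd0 : d ≠ 0 := by omega
  have hd' : (300:ℝ) ≤ d := by exact_mod_cast hd
  set K : ℝ := 4 * (d+1) * (256 * (9/10)) ^ d * 48 * 2 ^ (locB d) with hK
  have hK0 : 0 ≤ K := by positivity
  have hlim : Tendsto (fun n : ℕ => K / n) atTop (𝓝 0) := tendsto_const_div_atTop_nhds_zero_nat K
  have h1 : ∀ᶠ n : ℕ in atTop, rn d n < 9/10 / (2 * d) :=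
    (rn_tendsto hd0).eventually (gt_mem_nhds (by positivity))
  refine squeeze_zero' (Eventually.of_forall fun n => measureReal_nonneg) ?_ hlim
  filter_upwards [h1, eventually_ge_atTop 3] with n h3 h5
  have hn3 : (3:ℝ) ≤ n := by exact_mod_cast h5
  have hn : (0:ℝ) < n := by linarith
  have hr := rn_pos d (show 2 ≤ n by omega)
  have h6 : 10/9 * rn d n * (2 * d) ≤ 1 := by
    rw [lt_div_iff₀ (by positivity)] at h3
    calc 10/9 * rn d n * (2 * d) = 10/9 * (rn d n * (2 * d)) := by ring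
      _ ≤ 10/9 * (9/10) := by gcongr
      _ = 1 := by norm_num
  have h7 := col_prob (n := n) hd (a := 10/9 * rn d n) (by linarith) h6
  have hL1 : 1 ≤ Real.log n := by
    rw [Real.le_log_iff_exp_le hn]
    have := Real.exp_one_lt_d9
    linarith
  have hrp := rn_pow hd0 n
  set L := Real.log n with hLdef
  have hbpow : (10/9 * rn d n) ^ d = (10/9) ^ d * (L / (48 * n)) := by rw [mul_pow, hrp]
  -- the exponent
  have hm : 2 * L / n ≤ (24/25 * (10/9 * rn d n)) ^ d / (8 * (d+1)) := by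
    have e : 24/25 * (10/9 * rn d n) = 16/15 * rn d n := by ring
    rw [e, mul_pow, hrp, le_div_iff₀ (by positivity)]
    have h8 := numeric2 hd
    have h9 : 0 ≤ L / (48 * n) := by positivity
    calc 2 * L / n * (8 * (d+1)) = (768 * ((d:ℝ)+1)) * (L / (48 * n)) := by
          field_simp; norm_num
      _ ≤ (16/15) ^ d * (L / (48 * n)) := mul_le_mul_of_nonneg_right h8 h9
  have hm1 : (24/25 * (10/9 * rn d n)) ^ d / (8 * ((d:ℝ)+1)) ≤ 1 := by
    rw [div_le_one (by positivity)]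
    have h8 : 24/25 * (10/9 * rn d n) ≤ 1 := by nlinarith
    have h9 : (24/25 * (10/9 * rn d n)) ^ d ≤ 1 := pow_le_one₀ (by positivity) h8
    linarith
  set m := (24/25 * (10/9 * rn d n)) ^ d / (8 * ((d:ℝ)+1)) with hmdef
  have h10 : (1 - m) ^ n ≤ 1 / (n:ℝ) ^ 2 := by
    have h11 : 1 - m ≤ Real.exp (-(2 * L / n)) := by
      have := Real.add_one_le_exp (-(2 * L / n))
      linarith
    calc (1 - m) ^ n ≤ (Real.exp (-(2 * L / n))) ^ n := pow_le_pow_left₀ (by linarith) h11 n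
      _ = Real.exp (-(2 * L)) := by rw [← Real.exp_nat_mul]; congr 1; field_simp
      _ = 1 / (n:ℝ) ^ 2 := by
        rw [Real.exp_neg, hLdef, two_mul, Real.exp_add, Real.exp_log hn, one_div, sq]
  have h12 : (256 / (10/9 * rn d n)) ^ d = (256 * (9/10)) ^ d * (48 * n / L) := by
    rw [div_pow, hbpow, mul_pow, div_pow 10 9, div_pow 9 10]
    field_simp
  calc (law d n).real (colSet d n (10/9 * rn d n))
      ≤ 4 * (d+1) * (256 / (10/9 * rn d n)) ^ d * 2 ^ (locB d) * (1 - m) ^ n := h7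
    _ ≤ 4 * (d+1) * (256 / (10/9 * rn d n)) ^ d * 2 ^ (locB d) * (1 / (n:ℝ) ^ 2) := by gcongr
    _ = K / n * (1 / L) := by
      rw [h12, hK]; field_simp
    _ ≤ K / n * 1 := by
      apply mul_le_mul_of_nonneg_left _ (by positivity)
      rw [div_le_one (by linarith)]; exact hL1
    _ = K / n := mul_one _

/-- The separation threshold. -/
noncomputable def th (d n : ℕ) : ℝ := 40/33 * rn d n

/-- The exceptional set. -/
def bad (d n : ℕ) : Set (Fin n → S d) :=
  colSet d n (10/9 * rn d n) ∪ (holeSet d n (rn d n))ᶜ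

theorem bad_tendsto {d : ℕ} (hd : 300 ≤ d) :
    Tendsto (fun n => (law d n) (bad d n)) atTop (𝓝 0) := by
  have h1 : Tendsto (fun n => (law d n).real (bad d n)) atTop (𝓝 0) := by
    have h2 := (col_tendsto hd).add (hole_tendsto (d := d) (by omega))
    rw [add_zero] at h2
    exact squeeze_zero (fun n => measureReal_nonneg) (fun n => measureReal_union_le _ _) h2
  have h2 := ENNReal.tendsto_ofReal h1
  rw [ENNReal.ofReal_zero] at h2
  refine h2.congr fun n => ?_
  exact ofReal_measureReal (measure_ne_top _ _)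

theorem good {d : ℕ} (hd : 300 ≤ d) : ∀ᶠ n : ℕ in atTop, 0 < th d n ∧ ∀ x ∉ bad d n,
    hittingAngle (ChromaticAbove (d+1)) x ≤ (th d n : EReal) ∧
      ((11/10 * th d n : ℝ) : EReal) ≤ hittingAngle (HasSphericalSubgraph (d+1)) x := by
  have h1 : ∀ᶠ n : ℕ in atTop, rn d n < 1/8 :=
    (rn_tendsto (by omega)).eventually (gt_mem_nhds (by norm_num))
  filter_upwards [h1, eventually_ge_atTop 2] with n h2 h3
  have hr := rn_pos d h3
  refine ⟨by unfold th; linarith, fun x hx => ?_⟩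
  unfold bad at hx
  rw [mem_union, not_or, mem_compl_iff, not_not] at hx
  apply separation (θ := th d n) (by unfold th; linarith) (by unfold th; linarith)
  · have e : 11/12 * th d n = 10/9 * rn d n := by unfold th; ring
    rw [e]; exact hx.1
  · have e : 3/4 * (11/10 * th d n) = rn d n := by unfold th; ring
    rw [e]; exact hx.2

end Pool.Agent.Helper96.Borsuk
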